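import Pool.Agent.R267.NL.Defs

set_option autoImplicit false
open MeasureTheory Filter Topology Set
open scoped ContDiff

/-!
# NL-COUNT: Sturm's bound on the zeros of a sum
-/
namespace Pool.Agent.R267.NL

namespace CountP

/-- quantitative uniqueness on a short interval -/
theorem short {R : ℝ → ℝ} {Q l ε z w : ℝ} (hR : ContDiff ℝ 2 R)
    (hode : ∀ x, |deriv (deriv R) x| ≤ Q * |R x|) (hQ : 0 ≤ Q) (hε : 0 ≤ ε)
    (hzw : z ≤ w) (hl : w - z ≤ l) (hQl : Q * l ^ 2 ≤ 1 / 4) (hz : |R z| ≤ ε)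
    (hw : |deriv R w| ≤ ε) : |deriv R z| ≤ ε * (1 + 2 * Q * l * (1 + l)) := by
  have hl0 : 0 ≤ l := by linarith
  have hd : Differentiable ℝ R := hR.differentiable (by norm_num)
  have hd2 : Differentiable ℝ (deriv R) := hR.differentiable_deriv_two
  obtain ⟨x0, hx0, hmax⟩ := (isCompact_Icc (a := z) (b := w)).exists_isMaxOn
    (nonempty_Icc.2 hzw) (hd.continuous.abs.continuousOn)
  set T := |R x0| with hT
  have hT0 : 0 ≤ T := abs_nonneg _
  have hRT : ∀ x ∈ Icc z w, |R x| ≤ T := fun x hx => hmax hx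
  have h1 : ∀ x ∈ Icc z w, |deriv R x| ≤ ε + Q * T * l := by
    intro x hx
    have h2 := Convex.norm_image_sub_le_of_norm_deriv_le (f := deriv R) (s := Icc z w)
      (C := Q * T) (fun y _ => hd2 y) (fun y hy => by
        rw [Real.norm_eq_abs]
        exact (hode y).trans (mul_le_mul_of_nonneg_left (hRT y hy) hQ)) (convex_Icc z w)
      (right_mem_Icc.2 hzw) hx
    rw [Real.norm_eq_abs, Real.norm_eq_abs] at h2
    have h3 : |x - w| ≤ l := by
      rw [abs_sub_comm, abs_of_nonneg (by linarith [hx.2])]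
      linarith [hx.1]
    have h4 : Q * T * |x - w| ≤ Q * T * l := mul_le_mul_of_nonneg_left h3 (by positivity)
    have h5 : |deriv R x| ≤ |deriv R x - deriv R w| + |deriv R w| := by
      have := abs_add_le (deriv R x - deriv R w) (deriv R w)
      simpa using this
    linarith
  have h2 : T ≤ ε + (ε + Q * T * l) * l := by
    have h3 := Convex.norm_image_sub_le_of_norm_deriv_le (f := R) (s := Icc z w)
      (C := ε + Q * T * l) (fun y _ => hd y) (fun y hy => by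
        rw [Real.norm_eq_abs]; exact h1 y hy) (convex_Icc z w)
      (left_mem_Icc.2 hzw) hx0
    rw [Real.norm_eq_abs, Real.norm_eq_abs] at h3
    have h4 : |x0 - z| ≤ l := by
      rw [abs_of_nonneg (by linarith [hx0.1])]
      linarith [hx0.2]
    have h5 : (ε + Q * T * l) * |x0 - z| ≤ (ε + Q * T * l) * l :=
      mul_le_mul_of_nonneg_left h4 (by positivity)
    have h6 : |R x0| ≤ |R x0 - R z| + |R z| := by
      have := abs_add_le (R x0 - R z) (R z)
      simpa using this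
    linarith
  have h3 : T ≤ 2 * ε * (1 + l) := by
    have h4 : Q * l ^ 2 * T ≤ 1 / 4 * T := mul_le_mul_of_nonneg_right hQl hT0
    have h5 : (ε + Q * T * l) * l = ε * l + Q * l ^ 2 * T := by ring
    have h6 : 0 ≤ ε * l := by positivity
    nlinarith
  have h4 := h1 z (left_mem_Icc.2 hzw)
  have h5 : Q * T * l ≤ Q * (2 * ε * (1 + l)) * l := by gcongr
  calc |deriv R z| ≤ ε + Q * T * l := h4
    _ ≤ ε + Q * (2 * ε * (1 + l)) * l := by linarith
    _ = ε * (1 + 2 * Q * l * (1 + l)) := by ring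

/-- some gap is short -/
theorem gap {a : ℝ} {N : ℕ} (hN : 0 < N) {g : ℤ → ℝ} (hg : ∀ i, g (i + N) = g i + a) :
    ∃ i : ℤ, g (i + 1) - g i ≤ a / N := by
  have h1 : ∑ i ∈ Finset.range N, (g ((i : ℤ) + 1) - g (i : ℤ)) ≤ ∑ i ∈ Finset.range N, a / N := by
    have h2 : ∑ i ∈ Finset.range N, (g ((i : ℤ) + 1) - g (i : ℤ)) = a := by
      have h3 := Finset.sum_range_sub (fun i : ℕ => g (i : ℤ)) N
      have h4 := hg 0
      rw [zero_add] at h4
      push_cast at h3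
      rw [h3, h4]
      ring
    rw [h2, Finset.sum_const, Finset.card_range, nsmul_eq_mul]
    have : (N : ℝ) ≠ 0 := by positivity
    field_simp
    exact le_rfl
  obtain ⟨i, -, hi⟩ := Finset.exists_le_of_sum_le (Finset.nonempty_range_iff.2 hN.ne') h1
  exact ⟨i, hi⟩

theorem per_deriv {a : ℝ} {f : ℝ → ℝ} (h : ∀ x, f (x + a) = f x) (x : ℝ) :
    deriv f (x + a) = deriv f x := by
  have h1 : (fun x => f (x + a)) = f := funext h
  rw [← deriv_comp_add_const, h1]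

theorem bdd {a : ℝ} (ha : a ≠ 0) {f : ℝ → ℝ} (h : ∀ x, f (x + a) = f x) (hf : Continuous f) :
    ∃ B : ℝ, ∀ x, |f x| ≤ B := by
  have h1 : Bornology.IsBounded (range f) := Function.Periodic.isBounded_of_continuous h ha hf
  obtain ⟨B, hB⟩ := h1.exists_norm_le
  exact ⟨B, fun x => hB _ (mem_range_self x)⟩

end CountP

open CountP in
theorem s_COUNT (h0 : S_UNIQ) (h1 : S_NV) (h2 : S_ROLLE) : S_COUNT := by
  intro a Q q S R ha hQ hq hqp hC hP hode hle hne N hN hZ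
  by_contra hcon
  push Not at hcon
  classical
  set S' := S.filter (fun μ => ∃ x, R μ x ≠ 0) with hS'
  have hsub : ∀ μ ∈ S', μ ∈ S := fun μ hμ => (Finset.mem_filter.1 hμ).1
  have hsum : ∀ x, ∑ μ ∈ S', R μ x = ∑ μ ∈ S, R μ x := by
    intro x
    apply Finset.sum_subset (Finset.filter_subset _ _)
    intro μ hμ hμ'
    by_contra h
    exact hμ' (Finset.mem_filter.2 ⟨hμ, x, h⟩)
  have hS'ne : S'.Nonempty := by
    obtain ⟨x, hx⟩ := hne
    rw [← hsum] at hx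
    by_contra h
    rw [Finset.not_nonempty_iff_eq_empty] at h
    rw [h, Finset.sum_empty] at hx
    exact hx rfl
  obtain ⟨μ1, hμ1, hmin⟩ : ∃ μ1 ∈ S', ∀ μ ∈ S', μ1 ≤ μ :=
    ⟨S'.min' hS'ne, S'.min'_mem hS'ne, fun μ hμ => S'.min'_le μ hμ⟩
  obtain ⟨x1, hx1⟩ := (Finset.mem_filter.1 hμ1).2
  have hμ1S := hsub μ1 hμ1
  set M := μ1 + 2 * Q + 1 with hM
  have hp : ∀ x, 0 < M - q x := by
    intro x
    have := (abs_le.1 (hle μ1 hμ1S x)).1
    linarith
  have hMμ : ∀ μ ∈ S, μ < M := by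
    intro μ hμ
    have h3 := (abs_le.1 (hle μ hμ 0)).2
    have h4 := (abs_le.1 (hle μ1 hμ1S 0)).1
    linarith
  have hdR : ∀ μ ∈ S, Differentiable ℝ (R μ) := fun μ hμ => (hC μ hμ).differentiable (by norm_num)
  have hdR2 : ∀ μ ∈ S, Differentiable ℝ (deriv (R μ)) := fun μ hμ =>
    (hC μ hμ).differentiable_deriv_two
  -- derivatives of combinations
  have der1 : ∀ c : ℝ → ℝ, deriv (fun x => ∑ μ ∈ S', c μ * R μ x) =
      fun x => ∑ μ ∈ S', c μ * deriv (R μ) x := by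
    intro c
    funext x
    exact (HasDerivAt.fun_sum fun μ hμ =>
      ((hdR μ (hsub μ hμ) x).hasDerivAt.const_mul (c μ))).deriv
  have der2 : ∀ c : ℝ → ℝ, deriv (deriv (fun x => ∑ μ ∈ S', c μ * R μ x)) =
      fun x => ∑ μ ∈ S', c μ * ((μ - q x) * R μ x) := by
    intro c
    rw [der1]
    funext x
    rw [(HasDerivAt.fun_sum fun μ hμ =>
      ((hdR2 μ (hsub μ hμ) x).hasDerivAt.const_mul (c μ))).deriv]
    exact Finset.sum_congr rfl fun μ hμ => by rw [hode μ (hsub μ hμ)]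
  have hC2 : ∀ c : ℝ → ℝ, ContDiff ℝ 2 (fun x => ∑ μ ∈ S', c μ * R μ x) := by
    intro c
    exact ContDiff.sum fun μ hμ => contDiff_const.mul (hC μ (hsub μ hμ))
  have hper : ∀ c : ℝ → ℝ, ∀ x, ∑ μ ∈ S', c μ * R μ (x + a) = ∑ μ ∈ S', c μ * R μ x := by
    intro c x
    exact Finset.sum_congr rfl fun μ hμ => by rw [hP μ (hsub μ hμ)]
  have hnv : ∀ c : ℝ → ℝ, c μ1 ≠ 0 → ∀ s t : ℝ, s < t →
      ∃ x ∈ Ioo s t, ∑ μ ∈ S', c μ * R μ x ≠ 0 := by
    intro c hc s t hst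
    by_contra hcon2
    push Not at hcon2
    have h3 := h1 Q q S' (fun μ x => c μ * R μ x) hq
      (fun μ hμ => contDiff_const.mul (hC μ (hsub μ hμ)))
      (fun μ hμ x => by
        have e1 : deriv (fun x => c μ * R μ x) = fun x => c μ * deriv (R μ) x := by
          funext y
          exact ((hdR μ (hsub μ hμ) y).hasDerivAt.const_mul (c μ)).deriv
        show deriv (deriv (fun x => c μ * R μ x)) x = (μ - q x) * (c μ * R μ x)
        rw [e1, ((hdR2 μ (hsub μ hμ) x).hasDerivAt.const_mul (c μ)).deriv, hode μ (hsub μ hμ)]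
        ring)
      (fun μ hμ => hle μ (hsub μ hμ)) s t hst hcon2 μ1 hμ1 x1
    rcases mul_eq_zero.1 h3 with h4 | h4
    · exact hc h4
    · exact hx1 h4
  -- all the U_j have zeros
  have hU : ∀ j : ℕ, HasZ a N (fun x => ∑ μ ∈ S', (μ - M) ^ j * R μ x) := by
    intro j
    induction j with
    | zero =>
      obtain ⟨g, hg1, hg2, hg3⟩ := hZ
      refine ⟨g, hg1, hg2, fun i => ?_⟩
      have := hg3 i
      simp only [pow_zero, one_mul]
      rw [hsum]
      exact this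
    | succ j ih =>
      have h3 := h2 a N (fun x => ∑ μ ∈ S', (μ - M) ^ j * R μ x) (fun x => M - q x) ha hN
        (hC2 _) (continuous_const.sub hq) hp (hper _) (fun x => by rw [hqp])
        (hnv (fun μ => (μ - M) ^ j) (pow_ne_zero _ (by have := hMμ μ1 hμ1S; linarith))) ih
      have e : (fun x => deriv (deriv (fun x => ∑ μ ∈ S', (μ - M) ^ j * R μ x)) x -
          (M - q x) * ∑ μ ∈ S', (μ - M) ^ j * R μ x) =
          (fun x => ∑ μ ∈ S', (μ - M) ^ (j + 1) * R μ x) := by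
        funext x
        rw [der2 (fun μ => (μ - M) ^ j), Finset.mul_sum, ← Finset.sum_sub_distrib]
        refine Finset.sum_congr rfl fun μ _ => ?_
        rw [pow_succ]
        ring
      rw [e] at h3
      exact h3
  set r : ℝ → ℝ := fun μ => (M - μ) / (M - μ1) with hr
  have hM1 : 0 < M - μ1 := by linarith
  have hr1 : r μ1 = 1 := div_self hM1.ne'
  have hr0 : ∀ μ ∈ S', 0 ≤ r μ := fun μ hμ =>
    div_nonneg (by have := hMμ μ (hsub μ hμ); linarith) hM1.le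
  have hrlt : ∀ μ ∈ S', μ ≠ μ1 → r μ < 1 := by
    intro μ hμ hne'
    have h3 : μ1 < μ := lt_of_le_of_ne (hmin μ hμ) (Ne.symm hne')
    rw [hr]
    simp only
    rw [div_lt_one hM1]
    linarith
  have hG : ∀ j : ℕ, HasZ a N (fun x => ∑ μ ∈ S', r μ ^ j * R μ x) := by
    intro j
    obtain ⟨g, hg1, hg2, hg3⟩ := hU j
    refine ⟨g, hg1, hg2, fun i => ?_⟩
    have h3 := hg3 i
    simp only at h3 ⊢
    have h4 : ∑ μ ∈ S', r μ ^ j * R μ (g i) =
        ((μ1 - M) ^ j)⁻¹ * ∑ μ ∈ S', (μ - M) ^ j * R μ (g i) := by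
      rw [Finset.mul_sum]
      refine Finset.sum_congr rfl fun μ _ => ?_
      have h5 : r μ = (μ - M) / (μ1 - M) := by
        rw [hr]
        simp only
        rw [← neg_sub μ M, ← neg_sub μ1 M, neg_div_neg_eq]
      rw [h5, div_pow]
      ring
    rw [h4, h3, mul_zero]
  -- bounds
  obtain ⟨B, hB0, hB⟩ : ∃ B : ℝ, 0 ≤ B ∧ ∀ μ ∈ S', ∀ x, |R μ x| ≤ B ∧ |deriv (R μ) x| ≤ B := by
    have h3 : ∀ μ ∈ S', ∃ B : ℝ, 0 ≤ B ∧ ∀ x, |R μ x| ≤ B ∧ |deriv (R μ) x| ≤ B := by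
      intro μ hμ
      obtain ⟨B1, hB1⟩ := bdd ha.ne' (hP μ (hsub μ hμ)) (hdR μ (hsub μ hμ)).continuous
      obtain ⟨B2, hB2⟩ := bdd ha.ne' (per_deriv (hP μ (hsub μ hμ))) (hdR2 μ (hsub μ hμ)).continuous
      exact ⟨max B1 B2, (abs_nonneg _).trans ((hB1 0).trans (le_max_left _ _)), fun x =>
        ⟨(hB1 x).trans (le_max_left _ _), (hB2 x).trans (le_max_right _ _)⟩⟩
    choose! B hB0 hB using h3
    refine ⟨∑ μ ∈ S', B μ, Finset.sum_nonneg fun μ hμ => hB0 μ hμ, fun μ hμ x => ?_⟩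
    have h4 : B μ ≤ ∑ μ ∈ S', B μ := Finset.single_le_sum (fun μ hμ => hB0 μ hμ) hμ
    exact ⟨(hB μ hμ x).1.trans h4, (hB μ hμ x).2.trans h4⟩
  set ep : ℕ → ℝ := fun j => ∑ μ ∈ S'.erase μ1, r μ ^ j * B with hep
  have hep0 : ∀ j, 0 ≤ ep j := fun j => Finset.sum_nonneg fun μ hμ =>
    mul_nonneg (pow_nonneg (hr0 μ (Finset.mem_of_mem_erase hμ)) _) hB0
  have heplim : Tendsto ep atTop (𝓝 0) := by
    have h3 : Tendsto ep atTop (𝓝 (∑ μ ∈ S'.erase μ1, 0 * B)) := by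
      refine tendsto_finsetSum _ fun μ hμ => ?_
      have hμ' := Finset.mem_erase.1 hμ
      exact (tendsto_pow_atTop_nhds_zero_of_lt_one (hr0 μ hμ'.2) (hrlt μ hμ'.2 hμ'.1)).mul_const B
    simpa using h3
  have happ : ∀ (j : ℕ) (F : ℝ → ℝ), (∀ μ ∈ S', |F μ| ≤ B) →
      |∑ μ ∈ S', r μ ^ j * F μ - F μ1| ≤ ep j := by
    intro j F hF
    rw [← Finset.add_sum_erase S' _ hμ1, hr1, one_pow, one_mul, add_sub_cancel_left]
    refine (Finset.abs_sum_le_sum_abs _ _).trans (Finset.sum_le_sum fun μ hμ => ?_)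
    have hμ' := (Finset.mem_erase.1 hμ).2
    rw [abs_mul, abs_of_nonneg (pow_nonneg (hr0 μ hμ') j)]
    exact mul_le_mul_of_nonneg_left (hF μ hμ') (pow_nonneg (hr0 μ hμ') j)
  -- the energy
  have hode1 : ∀ x, |deriv (deriv (R μ1)) x| ≤ Q * |R μ1 x| := by
    intro x
    rw [hode μ1 hμ1S, abs_mul]
    exact mul_le_mul_of_nonneg_right (hle μ1 hμ1S x) (abs_nonneg _)
  have hEc : Continuous (fun x => Q * R μ1 x ^ 2 + deriv (R μ1) x ^ 2) :=
    (continuous_const.mul ((hdR μ1 hμ1S).continuous.pow 2)).add ((hdR2 μ1 hμ1S).continuous.pow 2)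
  have hEp : Function.Periodic (fun x => Q * R μ1 x ^ 2 + deriv (R μ1) x ^ 2) a := by
    intro x
    simp only
    rw [hP μ1 hμ1S, per_deriv (hP μ1 hμ1S)]
  have hcomp : IsCompact (range (fun x => Q * R μ1 x ^ 2 + deriv (R μ1) x ^ 2)) :=
    hEp.compact_of_continuous ha.ne' hEc
  obtain ⟨E0, ⟨xE, hxE⟩, hE0min⟩ := hcomp.exists_isLeast (range_nonempty _)
  have hE0 : 0 < E0 := by
    by_contra hE
    push Not at hE
    simp only at hxE
    have h3 : 0 ≤ Q * R μ1 xE ^ 2 := by positivity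
    have h4 : 0 ≤ deriv (R μ1) xE ^ 2 := by positivity
    have h5 : Q * R μ1 xE ^ 2 = 0 := by linarith
    have h6 : deriv (R μ1) xE ^ 2 = 0 := by linarith
    have h7 : R μ1 xE = 0 := by
      rcases mul_eq_zero.1 h5 with h | h
      · exact absurd h hQ.ne'
      · exact pow_eq_zero_iff (two_ne_zero) |>.1 h
    have h8 : deriv (R μ1) xE = 0 := pow_eq_zero_iff (two_ne_zero) |>.1 h6
    exact hx1 (h0 Q (R μ1) (hC μ1 hμ1S) hode1 xE h7 h8 x1)
  -- the short gap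
  set l := a / N with hl
  have hN0 : (0 : ℝ) < N := by exact_mod_cast hN
  have hl0 : 0 < l := by positivity
  have hQl : Q * l ^ 2 ≤ 1 / 4 := by
    have h3 : (2 * a * Real.sqrt Q) ^ 2 < (N : ℝ) ^ 2 :=
      pow_lt_pow_left₀ hcon (by positivity) (by norm_num)
    rw [mul_pow, Real.sq_sqrt hQ.le] at h3
    rw [hl, div_pow, ← mul_div_assoc, div_le_div_iff₀ (by positivity) (by norm_num)]
    nlinarith
  set c := 1 + 2 * Q * l * (1 + l) with hc
  have hlim2 : Tendsto (fun j => ep j ^ 2 * (Q + c ^ 2)) atTop (𝓝 0) := by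
    have := (heplim.pow 2).mul_const (Q + c ^ 2)
    simpa using this
  obtain ⟨j, hj⟩ := ((hlim2.eventually (gt_mem_nhds hE0))).exists
  obtain ⟨g, hg1, hg2, hg3⟩ := hG j
  obtain ⟨i, hi⟩ := gap hN hg2
  have hlt : g i < g (i + 1) := hg1 (by omega)
  obtain ⟨w, hw, hw0⟩ := exists_deriv_eq_zero hlt
    ((hC2 (fun μ => r μ ^ j)).continuous.continuousOn) ((hg3 i).trans (hg3 (i + 1)).symm)
  rw [der1 (fun μ => r μ ^ j)] at hw0
  have hz1 : |R μ1 (g i)| ≤ ep j := by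
    have h3 := happ j (fun μ => R μ (g i)) (fun μ hμ => (hB μ hμ _).1)
    have h4 := hg3 i
    simp only at h4
    rw [h4, zero_sub, abs_neg] at h3
    exact h3
  have hw1 : |deriv (R μ1) w| ≤ ep j := by
    have h3 := happ j (fun μ => deriv (R μ) w) (fun μ hμ => (hB μ hμ _).2)
    simp only at hw0
    rw [hw0, zero_sub, abs_neg] at h3
    exact h3
  have hfin := short (hC μ1 hμ1S) hode1 hQ.le (hep0 j) hw.1.le (l := l)
    (by linarith [hw.2]) hQl hz1 hw1
  have hE1 : E0 ≤ Q * R μ1 (g i) ^ 2 + deriv (R μ1) (g i) ^ 2 := hE0min (mem_range_self (g i))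
  have h3 : R μ1 (g i) ^ 2 ≤ ep j ^ 2 := by
    rw [← sq_abs (R μ1 (g i))]
    gcongr
  have h4 : deriv (R μ1) (g i) ^ 2 ≤ (ep j * c) ^ 2 := by
    rw [← sq_abs (deriv (R μ1) (g i))]
    gcongr
  have h5 : Q * R μ1 (g i) ^ 2 ≤ Q * ep j ^ 2 := mul_le_mul_of_nonneg_left h3 hQ.le
  have h6 : ep j ^ 2 * (Q + c ^ 2) = Q * ep j ^ 2 + (ep j * c) ^ 2 := by ring
  linarith

end Pool.Agent.R267.NL
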