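import Pool.Agent.R267.NL.Defs

/-!
# Piece NL-COVER (helper310): length of the zero set from crossing counts
-/

set_option autoImplicit false

open MeasureTheory Filter Topology
open scoped ENNReal ContDiff

namespace Pool.Agent.R267.NL.CoverAux

/-- number of closed grid intervals containing a zero -/
theorem card_line (f : ℝ → ℝ) (b Z t : ℝ) (N : ℕ) (hN : 2 ≤ N) (hb : 0 < b)
    (hZ : ∀ c : ℝ, {y | y ∈ Set.Ico c (c + b) ∧ f y = 0}.Finite ∧
      (Set.ncard {y | y ∈ Set.Ico c (c + b) ∧ f y = 0} : ℝ) ≤ Z) (J : Finset (Fin (N + 1)))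
    (hJ : ∀ j ∈ J, ∃ y ∈ Set.Icc (t + (((j : ℕ) : ℝ) - 1) * (b / N))
      (t + ((j : ℕ) : ℝ) * (b / N)), f y = 0) :
    (J.card : ℝ) ≤ 4 * Z := by
  classical
  have hN2 : (2 : ℝ) ≤ N := by exact_mod_cast hN
  have hN0 : (0 : ℝ) < N := by linarith
  set δ := b / N with hδ
  have hδ0 : 0 < δ := div_pos hb hN0
  have hδN : δ * N = b := by rw [hδ]; field_simp
  set c := t - δ with hc
  obtain ⟨f1, n1⟩ := hZ c
  obtain ⟨f2, n2⟩ := hZ (c + b)
  have c1 : (f1.toFinset.card : ℝ) ≤ Z := by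
    rwa [Set.ncard_eq_toFinset_card _ f1] at n1
  have c2 : (f2.toFinset.card : ℝ) ≤ Z := by
    rwa [Set.ncard_eq_toFinset_card _ f2] at n2
  set F := f1.toFinset ∪ f2.toFinset with hF
  have hFc : (F.card : ℝ) ≤ 2 * Z := by
    have h1 : F.card ≤ f1.toFinset.card + f2.toFinset.card := Finset.card_union_le _ _
    have h2 : (F.card : ℝ) ≤ f1.toFinset.card + f2.toFinset.card := by exact_mod_cast h1
    linarith
  let g1 : ℝ → ℤ := fun y => ⌊(y - t) / δ⌋ + 1
  let g2 : ℝ → ℤ := fun y => ⌊(y - t) / δ⌋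
  have hsub : J.image (fun j : Fin (N + 1) => ((j : ℕ) : ℤ)) ⊆ F.image g1 ∪ F.image g2 := by
    intro z hz
    obtain ⟨j, hj, rfl⟩ := Finset.mem_image.1 hz
    obtain ⟨y, ⟨hy1, hy2⟩, hy⟩ := hJ j hj
    have hjN : ((j : ℕ) : ℝ) ≤ N := by exact_mod_cast Nat.lt_succ_iff.1 j.2
    have hj0 : (0 : ℝ) ≤ ((j : ℕ) : ℝ) := Nat.cast_nonneg _
    have hyF : y ∈ F := by
      have l1 : c ≤ y := by
        have : (((j : ℕ) : ℝ) - 1) * δ ≥ -δ := by nlinarith
        rw [hc]; linarith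
      have l2 : y < c + b + b := by
        have h3 : ((j : ℕ) : ℝ) * δ ≤ b := by
          rw [← hδN]; nlinarith
        have h4 : 2 * δ ≤ b := by rw [← hδN]; nlinarith
        rw [hc]; linarith
      rw [hF, Finset.mem_union, Set.Finite.mem_toFinset, Set.Finite.mem_toFinset]
      rcases lt_or_ge y (c + b) with h5 | h5
      · exact Or.inl ⟨⟨l1, h5⟩, hy⟩
      · exact Or.inr ⟨⟨h5, l2⟩, hy⟩
    have s1 : ((j : ℕ) : ℝ) - 1 ≤ (y - t) / δ := by
      rw [le_div_iff₀ hδ0]; linarith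
    have s2 : (y - t) / δ ≤ ((j : ℕ) : ℝ) := by
      rw [div_le_iff₀ hδ0]; linarith
    rcases s2.lt_or_eq with h | h
    · have hfl : ⌊(y - t) / δ⌋ = ((j : ℕ) : ℤ) - 1 := by
        rw [Int.floor_eq_iff]
        push_cast
        exact ⟨s1, by linarith⟩
      exact Finset.mem_union_left _ (Finset.mem_image.2 ⟨y, hyF, by simp [g1, hfl]⟩)
    · have hfl : ⌊(y - t) / δ⌋ = ((j : ℕ) : ℤ) := by
        rw [h]; simp
      exact Finset.mem_union_right _ (Finset.mem_image.2 ⟨y, hyF, by simp [g2, hfl]⟩)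
  have hinj : (J.image (fun j : Fin (N + 1) => ((j : ℕ) : ℤ))).card = J.card :=
    Finset.card_image_of_injective _ (fun a b h => Fin.ext (by exact_mod_cast h))
  have hle : J.card ≤ F.card + F.card := by
    rw [← hinj]
    calc _ ≤ (F.image g1 ∪ F.image g2).card := Finset.card_le_card hsub
      _ ≤ (F.image g1).card + (F.image g2).card := Finset.card_union_le _ _
      _ ≤ F.card + F.card := Nat.add_le_add Finset.card_image_le Finset.card_image_le
  have hle' : (J.card : ℝ) ≤ F.card + F.card := by exact_mod_cast hle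
  linarith

/-- fibrewise count -/
theorem card_rows {n : ℕ} (P : Fin n → Fin n → Prop) (M : ℝ) (X : Finset (Fin n × Fin n))
    (hX : ∀ p ∈ X, P p.1 p.2)
    (h : ∀ (k : Fin n) (J : Finset (Fin n)), (∀ j ∈ J, P k j) → (J.card : ℝ) ≤ M) :
    (X.card : ℝ) ≤ n * M := by
  classical
  have h1 : X.card = ∑ k : Fin n, (X.filter (fun p => p.1 = k)).card :=
    Finset.card_eq_sum_card_fiberwise (f := fun p : Fin n × Fin n => p.1) (t := Finset.univ)
      (fun p _ => Finset.mem_coe.2 (Finset.mem_univ _))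
  have h2 : ∀ k : Fin n, ((X.filter (fun p => p.1 = k)).card : ℝ) ≤ M := by
    intro k
    have h3 : ((X.filter (fun p => p.1 = k)).image Prod.snd).card
        = (X.filter (fun p => p.1 = k)).card := by
      apply Finset.card_image_of_injOn
      intro p hp p' hp' hpp
      have e1 : p.1 = k := (Finset.mem_filter.1 (Finset.mem_coe.1 hp)).2
      have e2 : p'.1 = k := (Finset.mem_filter.1 (Finset.mem_coe.1 hp')).2
      exact Prod.ext (e1.trans e2.symm) hpp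
    rw [← h3]
    apply h k
    intro j hj
    obtain ⟨p, hp, rfl⟩ := Finset.mem_image.1 hj
    obtain ⟨hp1, hp2⟩ := Finset.mem_filter.1 hp
    rw [← hp2]
    exact hX p hp1
  rw [h1]
  push_cast
  calc ∑ k : Fin n, ((X.filter (fun p => p.1 = k)).card : ℝ) ≤ ∑ _k : Fin n, M :=
        Finset.sum_le_sum (fun k _ => h2 k)
    _ = n * M := by simp

/-- fibrewise count, columns -/
theorem card_cols {n : ℕ} (P : Fin n → Fin n → Prop) (M : ℝ) (X : Finset (Fin n × Fin n))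
    (hX : ∀ p ∈ X, P p.1 p.2)
    (h : ∀ (k : Fin n) (J : Finset (Fin n)), (∀ j ∈ J, P j k) → (J.card : ℝ) ≤ M) :
    (X.card : ℝ) ≤ n * M := by
  classical
  have h1 : (X.image Prod.swap).card = X.card :=
    Finset.card_image_of_injective _ Prod.swap_injective
  rw [← h1]
  apply card_rows (fun a b => P b a) M
  · intro p hp
    obtain ⟨p', hp', rfl⟩ := Finset.mem_image.1 hp
    exact hX p' hp'
  · intro k J hJ
    exact h k J hJ

/-- the zeros are countable -/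
theorem countable_zeros (f : ℝ → ℝ) (b : ℝ) (hb : 0 < b)
    (hZ : ∀ c : ℝ, {y | y ∈ Set.Ico c (c + b) ∧ f y = 0}.Finite) : {y | f y = 0}.Countable := by
  have h1 : {y | f y = 0} ⊆ ⋃ n : ℤ, {y | y ∈ Set.Ico ((n : ℝ) * b) ((n : ℝ) * b + b) ∧ f y = 0} := by
    intro y hy
    rw [Set.mem_iUnion]
    refine ⟨⌊y / b⌋, ⟨?_, ?_⟩, hy⟩
    · have := Int.floor_le (y / b)
      rwa [le_div_iff₀ hb] at this
    · have := Int.lt_floor_add_one (y / b)
      rw [div_lt_iff₀ hb] at this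
      linarith
  exact (Set.countable_iUnion fun n => (hZ _).countable).mono h1

/-- a grid avoiding a countable set -/
theorem exists_grid (C : Set ℝ) (hC : C.Countable) (δ : ℝ) (hδ : 0 < δ) :
    ∃ t, 0 < t ∧ t < δ ∧ ∀ k : ℤ, t + k * δ ∉ C := by
  have h1 : (⋃ k : ℤ, (fun t : ℝ => t + k * δ) ⁻¹' C).Countable :=
    Set.countable_iUnion fun k => hC.preimage (add_left_injective _)
  obtain ⟨t, ht, ht1, ht2⟩ := (h1.dense_compl ℝ).exists_between hδ
  refine ⟨t, ht1, ht2, fun k hk => ht ?_⟩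
  rw [Set.mem_iUnion]
  exact ⟨k, hk⟩

/-- a grid cell of the real line -/
theorem exists_cell (a t x : ℝ) (N : ℕ) (hN : 0 < N) (ha : 0 < a) (ht0 : 0 < t)
    (ht1 : t < a / N) (hx : x ∈ Set.Icc 0 a) :
    ∃ k : Fin (N + 1), x ∈ Set.Icc (t + (((k : ℕ) : ℝ) - 1) * (a / N))
      (t + ((k : ℕ) : ℝ) * (a / N)) := by
  have hN0 : (0 : ℝ) < N := by exact_mod_cast hN
  set δ := a / N with hδ
  have hδ0 : 0 < δ := div_pos ha hN0
  have hδN : (N : ℝ) * δ = a := by rw [hδ]; field_simp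
  obtain ⟨hx0, hxa⟩ := hx
  have f1 : (-1 : ℤ) ≤ ⌊(x - t) / δ⌋ := by
    rw [Int.le_floor, le_div_iff₀ hδ0]
    push_cast
    linarith
  have f2 : ⌊(x - t) / δ⌋ < (N : ℤ) := by
    rw [Int.floor_lt, div_lt_iff₀ hδ0]
    push_cast
    linarith
  obtain ⟨k, hk⟩ := Int.eq_ofNat_of_zero_le (show 0 ≤ ⌊(x - t) / δ⌋ + 1 by linarith)
  have hkN : k < N + 1 := by
    have : (k : ℤ) < (N : ℤ) + 1 := by rw [← hk]; linarith
    exact_mod_cast this
  refine ⟨⟨k, hkN⟩, ?_, ?_⟩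
  · have h3 := Int.floor_le ((x - t) / δ)
    have h4 : (⌊(x - t) / δ⌋ : ℝ) = (k : ℝ) - 1 := by
      have : ⌊(x - t) / δ⌋ = (k : ℤ) - 1 := by rw [← hk]; ring
      rw [this]; push_cast; ring
    rw [h4, le_div_iff₀ hδ0] at h3
    show t + ((k : ℝ) - 1) * δ ≤ x
    linarith
  · have h3 := Int.lt_floor_add_one ((x - t) / δ)
    have h4 : (⌊(x - t) / δ⌋ : ℝ) = (k : ℝ) - 1 := by
      have : ⌊(x - t) / δ⌋ = (k : ℤ) - 1 := by rw [← hk]; ring
      rw [this]; push_cast; ring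
    rw [h4, div_lt_iff₀ hδ0] at h3
    show x ≤ t + (k : ℝ) * δ
    nlinarith

/-- a rectangle in the plane -/
def cell (x1 x2 y1 y2 : ℝ) : Set (EuclideanSpace ℝ (Fin 2)) :=
  {p | p 0 ∈ Set.Icc x1 x2 ∧ p 1 ∈ Set.Icc y1 y2}

theorem ediam_cell (x1 x2 y1 y2 : ℝ) (hx : x1 ≤ x2) (hy : y1 ≤ y2) :
    Metric.ediam (cell x1 x2 y1 y2) ≤ ENNReal.ofReal ((x2 - x1) + (y2 - y1)) := by
  apply Metric.ediam_le
  rintro p ⟨⟨p1, p2⟩, p3, p4⟩ p' ⟨⟨q1, q2⟩, q3, q4⟩
  rw [edist_dist]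
  apply ENNReal.ofReal_le_ofReal
  rw [EuclideanSpace.dist_eq, Fin.sum_univ_two, Real.sqrt_le_left (by linarith)]
  rw [Real.dist_eq, Real.dist_eq, sq_abs, sq_abs]
  have h1 : (p 0 - p' 0) ^ 2 ≤ (x2 - x1) ^ 2 := by
    apply sq_le_sq'
    · linarith
    · linarith
  have h2 : (p 1 - p' 1) ^ 2 ≤ (y2 - y1) ^ 2 := by
    apply sq_le_sq'
    · linarith
    · linarith
  nlinarith [mul_nonneg (sub_nonneg.2 hx) (sub_nonneg.2 hy)]

/-- abstract covering lemma -/
theorem haus_le {X : Type*} [EMetricSpace X] [MeasurableSpace X] [BorelSpace X] (s : Set X)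
    (C : ℝ≥0∞) (R : ℝ) (N0 : ℕ)
    (h : ∀ N : ℕ, N0 ≤ N → ∃ T : Fin (N + 1) × Fin (N + 1) → Set X,
      (∀ i, Metric.ediam (T i) ≤ ENNReal.ofReal (R / N)) ∧ s ⊆ ⋃ i, T i ∧
      ∑ i, Metric.ediam (T i) ≤ C) : μH[1] s ≤ C := by
  have h' : ∀ N : ℕ, ∃ T : Fin (N + 1) × Fin (N + 1) → Set X, N0 ≤ N →
      (∀ i, Metric.ediam (T i) ≤ ENNReal.ofReal (R / N)) ∧ s ⊆ ⋃ i, T i ∧
      ∑ i, Metric.ediam (T i) ≤ C := by
    intro N
    by_cases hN : N0 ≤ N
    · obtain ⟨T, hT⟩ := h N hN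
      exact ⟨T, fun _ => hT⟩
    · exact ⟨fun _ => ∅, fun h => absurd h hN⟩
  choose T hT using h'
  have hr : Tendsto (fun N : ℕ => ENNReal.ofReal (R / N)) atTop (𝓝 0) := by
    have h1 : Tendsto (fun N : ℕ => R / (N : ℝ)) atTop (𝓝 0) :=
      tendsto_const_nhds.div_atTop tendsto_natCast_atTop_atTop
    have h2 := (ENNReal.continuous_ofReal.tendsto 0).comp h1
    rw [ENNReal.ofReal_zero] at h2
    exact h2
  have h3 := Measure.hausdorffMeasure_le_liminf_sum (ι := fun N : ℕ => Fin (N + 1) × Fin (N + 1))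
    (1 : ℝ) s (l := atTop) (fun N : ℕ => ENNReal.ofReal (R / N)) hr T
    (eventually_atTop.2 ⟨N0, fun N hN => (hT N hN).1⟩)
    (eventually_atTop.2 ⟨N0, fun N hN => (hT N hN).2.1⟩)
  refine h3.trans ?_
  have h4 : ∀ᶠ N in atTop, ∑ i, Metric.ediam (T N i) ^ (1 : ℝ) ≤ C := by
    refine eventually_atTop.2 ⟨N0, fun N hN => ?_⟩
    simp only [ENNReal.rpow_one]
    exact (hT N hN).2.2
  exact liminf_le_of_frequently_le' h4.frequently

end Pool.Agent.R267.NL.CoverAux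

namespace Pool.Agent.R267.NL

open CoverAux

/-- Piece NL-COVER. -/
theorem s_COVER (h : S_MAX) : S_COVER := by
  classical
  intro u q a b Q Z ha hb hZ0 hu hq0 hqQ hpde hpa hpb hne hZx hZy
  obtain ⟨x0, y0, h00⟩ := hne
  have hCx : {x | u x y0 = 0}.Countable :=
    countable_zeros (fun x => u x y0) a ha (fun c => (hZx y0 ⟨x0, h00⟩ c).1)
  have hCy : {y | u x0 y = 0}.Countable :=
    countable_zeros (fun y => u x0 y) b hb (fun c => (hZy x0 ⟨y0, h00⟩ c).1)
  obtain ⟨N0, hN0⟩ := exists_nat_ge (Q * a ^ 2)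
  apply haus_le _ _ (a + b) (max N0 2)
  intro N hN
  have hNN0 : N0 ≤ N := le_trans (le_max_left _ _) hN
  have hN2 : 2 ≤ N := le_trans (le_max_right _ _) hN
  have hN2r : (2 : ℝ) ≤ N := by exact_mod_cast hN2
  have hNr : (0 : ℝ) < N := by linarith
  have hQN : Q * a ^ 2 ≤ N := hN0.trans (by exact_mod_cast hNN0)
  set δ := a / N with hδ
  set δ' := b / N with hδ'
  have hδ0 : 0 < δ := div_pos ha hNr
  have hδ'0 : 0 < δ' := div_pos hb hNr
  obtain ⟨t, ht0, ht1, ht⟩ := exists_grid _ hCx δ hδ0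
  obtain ⟨t', ht'0, ht'1, ht'⟩ := exists_grid _ hCy δ' hδ'0
  -- grid lines
  set X1 : Fin (N + 1) → ℝ := fun k => t + (((k : ℕ) : ℝ) - 1) * δ with hX1
  set X2 : Fin (N + 1) → ℝ := fun k => t + ((k : ℕ) : ℝ) * δ with hX2
  set Y1 : Fin (N + 1) → ℝ := fun k => t' + (((k : ℕ) : ℝ) - 1) * δ' with hY1
  set Y2 : Fin (N + 1) → ℝ := fun k => t' + ((k : ℕ) : ℝ) * δ' with hY2
  have gX1 : ∀ k, ∃ y, u (X1 k) y ≠ 0 := by
    intro k
    refine ⟨y0, ?_⟩
    have := ht (((k : ℕ) : ℤ) - 1)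
    push_cast at this
    exact this
  have gX2 : ∀ k, ∃ y, u (X2 k) y ≠ 0 := by
    intro k
    refine ⟨y0, ?_⟩
    have := ht ((k : ℕ) : ℤ)
    push_cast at this
    exact this
  have gY1 : ∀ k, ∃ x, u x (Y1 k) ≠ 0 := by
    intro k
    refine ⟨x0, ?_⟩
    have := ht' (((k : ℕ) : ℤ) - 1)
    push_cast at this
    exact this
  have gY2 : ∀ k, ∃ x, u x (Y2 k) ≠ 0 := by
    intro k
    refine ⟨x0, ?_⟩
    have := ht' ((k : ℕ) : ℤ)
    push_cast at this
    exact this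
  have dX : ∀ k, X2 k - X1 k = δ := by intro k; simp only [hX1, hX2]; ring
  have dY : ∀ k, Y2 k - Y1 k = δ' := by intro k; simp only [hY1, hY2]; ring
  let cr : Fin (N + 1) × Fin (N + 1) → Prop := fun i =>
    ∃ x ∈ Set.Icc (X1 i.1) (X2 i.1), ∃ y ∈ Set.Icc (Y1 i.2) (Y2 i.2), u x y = 0
  let T : Fin (N + 1) × Fin (N + 1) → Set (EuclideanSpace ℝ (Fin 2)) := fun i =>
    if cr i then cell (X1 i.1) (X2 i.1) (Y1 i.2) (Y2 i.2) else ∅
  have hdiam : ∀ i : Fin (N + 1) × Fin (N + 1), Metric.ediam (cell (X1 i.1) (X2 i.1) (Y1 i.2) (Y2 i.2))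
      ≤ ENNReal.ofReal ((a + b) / N) := by
    intro i
    have h1 := ediam_cell (X1 i.1) (X2 i.1) (Y1 i.2) (Y2 i.2) (by linarith [dX i.1])
      (by linarith [dY i.2])
    rw [dX, dY] at h1
    have : (a + b) / (N : ℝ) = δ + δ' := by rw [hδ, hδ']; ring
    rw [this]
    exact h1
  -- crossed cells have boundary zeros
  have hbd : ∀ i : Fin (N + 1) × Fin (N + 1), cr i →
      ((∃ y ∈ Set.Icc (Y1 i.2) (Y2 i.2), u (X1 i.1) y = 0) ∨
       (∃ y ∈ Set.Icc (Y1 i.2) (Y2 i.2), u (X2 i.1) y = 0)) ∨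
      ((∃ x ∈ Set.Icc (X1 i.1) (X2 i.1), u x (Y1 i.2) = 0) ∨
       (∃ x ∈ Set.Icc (X1 i.1) (X2 i.1), u x (Y2 i.2) = 0)) := by
    intro i hi
    by_contra hcon
    push Not at hcon
    obtain ⟨⟨e1, e2⟩, e3, e4⟩ := hcon
    obtain ⟨x, hx, y, hy, hxy⟩ := hi
    have hsmall : Q * (X2 i.1 - X1 i.1) ^ 2 ≤ 1 := by
      rw [dX, hδ, div_pow, ← mul_div_assoc, div_le_one (by positivity)]
      nlinarith
    refine h u q Q (X1 i.1) (X2 i.1) (Y1 i.2) (Y2 i.2) (by linarith [dX i.1])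
      (by linarith [dY i.2]) hu hq0 hqQ hpde hsmall ?_ x hx y hy hxy
    intro x' hx' y' hy' hbdy
    rcases hbdy with h5 | h5 | h5 | h5
    · rw [h5]; exact e1 y' hy'
    · rw [h5]; exact e2 y' hy'
    · rw [h5]; exact e3 x' hx'
    · rw [h5]; exact e4 x' hx'
  -- the count
  have hcount : ((Finset.univ.filter cr).card : ℝ) ≤ 16 * (N + 1) * Z := by
    set A1 := Finset.univ.filter (fun i : Fin (N + 1) × Fin (N + 1) =>
      ∃ y ∈ Set.Icc (Y1 i.2) (Y2 i.2), u (X1 i.1) y = 0) with hA1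
    set A2 := Finset.univ.filter (fun i : Fin (N + 1) × Fin (N + 1) =>
      ∃ y ∈ Set.Icc (Y1 i.2) (Y2 i.2), u (X2 i.1) y = 0) with hA2
    set A3 := Finset.univ.filter (fun i : Fin (N + 1) × Fin (N + 1) =>
      ∃ x ∈ Set.Icc (X1 i.1) (X2 i.1), u x (Y1 i.2) = 0) with hA3
    set A4 := Finset.univ.filter (fun i : Fin (N + 1) × Fin (N + 1) =>
      ∃ x ∈ Set.Icc (X1 i.1) (X2 i.1), u x (Y2 i.2) = 0) with hA4
    have b1 : (A1.card : ℝ) ≤ ((N + 1 : ℕ) : ℝ) * (4 * Z) := by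
      apply card_rows (fun k j => ∃ y ∈ Set.Icc (Y1 j) (Y2 j), u (X1 k) y = 0) (4 * Z)
      · intro p hp
        exact (Finset.mem_filter.1 hp).2
      · intro k J hJ
        exact card_line (u (X1 k)) b Z t' N hN2 hb (hZy _ (gX1 k)) J hJ
    have b2 : (A2.card : ℝ) ≤ ((N + 1 : ℕ) : ℝ) * (4 * Z) := by
      apply card_rows (fun k j => ∃ y ∈ Set.Icc (Y1 j) (Y2 j), u (X2 k) y = 0) (4 * Z)
      · intro p hp
        exact (Finset.mem_filter.1 hp).2
      · intro k J hJ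
        exact card_line (u (X2 k)) b Z t' N hN2 hb (hZy _ (gX2 k)) J hJ
    have b3 : (A3.card : ℝ) ≤ ((N + 1 : ℕ) : ℝ) * (4 * Z) := by
      apply card_cols (fun k j => ∃ x ∈ Set.Icc (X1 k) (X2 k), u x (Y1 j) = 0) (4 * Z)
      · intro p hp
        exact (Finset.mem_filter.1 hp).2
      · intro k J hJ
        exact card_line (fun x => u x (Y1 k)) a Z t N hN2 ha (hZx _ (gY1 k)) J hJ
    have b4 : (A4.card : ℝ) ≤ ((N + 1 : ℕ) : ℝ) * (4 * Z) := by
      apply card_cols (fun k j => ∃ x ∈ Set.Icc (X1 k) (X2 k), u x (Y2 j) = 0) (4 * Z)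
      · intro p hp
        exact (Finset.mem_filter.1 hp).2
      · intro k J hJ
        exact card_line (fun x => u x (Y2 k)) a Z t N hN2 ha (hZx _ (gY2 k)) J hJ
    have hsub : Finset.univ.filter cr ⊆ (A1 ∪ A2) ∪ (A3 ∪ A4) := by
      intro i hi
      have := hbd i (Finset.mem_filter.1 hi).2
      simp only [hA1, hA2, hA3, hA4, Finset.mem_union, Finset.mem_filter, Finset.mem_univ,
        true_and]
      exact this
    have hc : (Finset.univ.filter cr).card ≤ (A1.card + A2.card) + (A3.card + A4.card) :=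
      (Finset.card_le_card hsub).trans ((Finset.card_union_le _ _).trans
        (Nat.add_le_add (Finset.card_union_le _ _) (Finset.card_union_le _ _)))
    have hc' : ((Finset.univ.filter cr).card : ℝ) ≤ (A1.card + A2.card) + (A3.card + A4.card) := by
      exact_mod_cast hc
    push_cast at b1 b2 b3 b4
    linarith
  refine ⟨T, ?_, ?_, ?_⟩
  · intro i
    by_cases hi : cr i
    · simp only [T, if_pos hi]
      exact hdiam i
    · simp only [T, if_neg hi, Metric.ediam_empty]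
      exact zero_le
  · rintro p ⟨hp0, hp1, hp⟩
    obtain ⟨k, hk⟩ := exists_cell a t (p 0) N (by omega) ha ht0 ht1 hp0
    obtain ⟨j, hj⟩ := exists_cell b t' (p 1) N (by omega) hb ht'0 ht'1 hp1
    rw [Set.mem_iUnion]
    refine ⟨(k, j), ?_⟩
    have hcr : cr (k, j) := ⟨p 0, hk, p 1, hj, hp⟩
    simp only [T, if_pos hcr]
    exact ⟨hk, hj⟩
  · have hsum : ∑ i, Metric.ediam (T i)
        ≤ ∑ i ∈ Finset.univ.filter cr, ENNReal.ofReal ((a + b) / N) := by
      rw [Finset.sum_filter]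
      apply Finset.sum_le_sum
      intro i _
      by_cases hi : cr i
      · simp only [T, if_pos hi]
        exact (hdiam i).trans (le_of_eq (if_pos hi).symm)
      · simp only [T, if_neg hi, Metric.ediam_empty]
        exact zero_le
    refine hsum.trans ?_
    rw [Finset.sum_const, nsmul_eq_mul, ← ENNReal.ofReal_natCast,
      ← ENNReal.ofReal_mul (Nat.cast_nonneg _)]
    apply ENNReal.ofReal_le_ofReal
    have hab : 0 < a + b := by linarith
    calc ((Finset.univ.filter cr).card : ℝ) * ((a + b) / N)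
        ≤ (16 * (N + 1) * Z) * ((a + b) / N) :=
          mul_le_mul_of_nonneg_right hcount (by positivity)
      _ = 16 * ((N + 1) / N) * ((a + b) * Z) := by ring
      _ ≤ 16 * 2 * ((a + b) * Z) := by
          have h6 : ((N : ℝ) + 1) / N ≤ 2 := by
            rw [div_le_iff₀ hNr]; linarith
          have h7 : 0 ≤ (a + b) * Z := by positivity
          nlinarith
      _ ≤ 100 * (a + b) * Z := by
          have h7 : 0 ≤ (a + b) * Z := by positivity
          nlinarith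

end Pool.Agent.R267.NL
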