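import Pool.Agent.R267.NL.SolAux

set_option autoImplicit false
open MeasureTheory
open scoped ContDiff

namespace Pool.Agent.R267.NL

namespace DecAux

open SolAux

/-- the spectral theorem, for an inner product core with bounded orthonormal families -/
theorem spec {V : Type} [iV : AddCommGroup V] [iM : Module ℝ V] (c : InnerProductSpace.Core ℝ V)
    (D : ℕ)
    (hD : ∀ (n : ℕ) (e : Fin n → V), (∀ i j, c.inner (e i) (e j) = if i = j then 1 else 0) →
      n ≤ D)
    (T : V →ₗ[ℝ] V) (hT : ∀ x y, c.inner (T x) y = c.inner x (T y)) (x : V) :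
    ∃ F : ℝ →₀ V, (∀ μ, T (F μ) = μ • F μ) ∧ F.sum (fun _ v => v) = x := by
  letI : NormedAddCommGroup V := @InnerProductSpace.Core.toNormedAddCommGroup ℝ V _ _ _ c
  letI : InnerProductSpace ℝ V := InnerProductSpace.ofCore c.toCore
  have hfin : FiniteDimensional ℝ V := by
    by_contra hnf
    have hrank : ((D + 1 : ℕ) : Cardinal) ≤ Module.rank ℝ V := by
      have h0 : Cardinal.aleph0 ≤ Module.rank ℝ V := by
        by_contra h
        rw [not_le] at h
        exact hnf (Module.rank_lt_aleph0_iff.1 h)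
      exact (Cardinal.natCast_lt_aleph0).le.trans h0
    obtain ⟨s, hs, hli⟩ := le_rank_iff_exists_linearIndependent_finset.1 hrank
    have hW : Module.finrank ℝ (Submodule.span ℝ (s : Set V)) = D + 1 := by
      rw [finrank_span_finset_eq_card hli, hs]
    haveI : FiniteDimensional ℝ (Submodule.span ℝ (s : Set V)) :=
      FiniteDimensional.span_finset ℝ s
    let e := stdOrthonormalBasis ℝ (Submodule.span ℝ (s : Set V))
    have h1 := hD (Module.finrank ℝ (Submodule.span ℝ (s : Set V)))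
      (fun i => ((e i : Submodule.span ℝ (s : Set V)) : V)) (fun i j => by
        have h2 := orthonormal_iff_ite.1 e.orthonormal i j
        exact h2)
    omega
  have hsym : T.IsSymmetric := fun x y => hT x y
  have htop : (⨆ μ : ℝ, Module.End.eigenspace T μ) = ⊤ := by
    have := hsym.orthogonalComplement_iSup_eigenspaces_eq_bot
    exact Submodule.orthogonal_eq_bot_iff.1 this
  have hx : x ∈ ⨆ μ : ℝ, Module.End.eigenspace T μ := by
    rw [htop]
    exact Submodule.mem_top
  obtain ⟨F, hF, hsum⟩ := (Submodule.mem_iSup_iff_exists_finsupp _ _).1 hx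
  exact ⟨F, fun μ => Module.End.mem_eigenspace_iff.1 (hF μ), hsum⟩

/-- the space of solutions -/
def V (f g : ℝ → ℝ) (a b lam : ℝ) : Submodule ℝ (ℝ × ℝ → ℝ) where
  carrier := {φ | Sol f g a b lam φ}
  add_mem' := fun h1 h2 => sol_add h1 h2
  zero_mem' := sol_zero
  smul_mem' := fun c _ h => sol_smul c h

/-- the inner product -/
noncomputable def core (f g : ℝ → ℝ) (a b lam : ℝ) (ha : 0 < a) (hb : 0 < b) :
    InnerProductSpace.Core ℝ (V f g a b lam) where
  inner φ ψ := I2 a b (fun p => φ.1 p * ψ.1 p)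
  conj_inner_symm φ ψ := by
    simp only [mul_comm, conj_trivial]
  re_inner_nonneg φ := I2_nonneg ha.le hb.le fun p => mul_self_nonneg _
  add_left φ ψ χ := by
    have h1 : (fun p => (φ + ψ).1 p * χ.1 p) = fun p => φ.1 p * χ.1 p + ψ.1 p * χ.1 p := by
      funext p
      show (φ.1 p + ψ.1 p) * χ.1 p = _
      ring
    rw [h1]
    exact I2_add (φ.2.smooth.continuous.mul χ.2.smooth.continuous)
      (ψ.2.smooth.continuous.mul χ.2.smooth.continuous)
  smul_left φ ψ r := by
    have h1 : (fun p => (r • φ).1 p * ψ.1 p) = fun p => r * (φ.1 p * ψ.1 p) := by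
      funext p
      show (r * φ.1 p) * ψ.1 p = _
      ring
    rw [h1]
    exact I2_smul r _
  definite φ h := by
    by_contra hne
    have h2 : ∃ p, φ.1 p ≠ 0 := by
      by_contra h3
      push Not at h3
      exact hne (Subtype.ext (funext h3))
    obtain ⟨p, hp⟩ := h2
    have h3 : 0 < I2 a b (fun p => φ.1 p * φ.1 p) :=
      I2_pos ha hb (φ.2.smooth.continuous.mul φ.2.smooth.continuous)
        (fun p => mul_self_nonneg _) (fun x y => by rw [φ.2.perx]) (fun x y => by rw [φ.2.pery])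
        p (mul_self_ne_zero.2 hp)
    exact absurd h h3.ne'

/-- the separated operator -/
noncomputable def T (h1 : S_INV) (f g : ℝ → ℝ) (a b lam : ℝ) (hf : ContDiff ℝ ∞ f)
    (hg : ContDiff ℝ ∞ g) (hpf : ∀ x, f (x + a) = f x) (hpg : ∀ y, g (y + b) = g y) :
    V f g a b lam →ₗ[ℝ] V f g a b lam where
  toFun φ := ⟨fun p => dxx φ.1 p + lam * f p.1 * φ.1 p,
    h1 f g a b lam φ.1 hf hg hpf hpg φ.2⟩
  map_add' φ ψ := by
    apply Subtype.ext
    funext p
    show dxx (fun q => φ.1 q + ψ.1 q) p + lam * f p.1 * (φ.1 p + ψ.1 p) =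
      (dxx φ.1 p + lam * f p.1 * φ.1 p) + (dxx ψ.1 p + lam * f p.1 * ψ.1 p)
    rw [dxx_add φ.2.smooth ψ.2.smooth]
    ring
  map_smul' r φ := by
    apply Subtype.ext
    funext p
    show dxx (fun q => r * φ.1 q) p + lam * f p.1 * (r * φ.1 p) =
      r * (dxx φ.1 p + lam * f p.1 * φ.1 p)
    rw [dxx_smul]
    ring

end DecAux

open SolAux DecAux in
theorem s_DEC (h1 : S_INV) (h2 : S_SYM) (h3 : S_DIM) : S_DEC := by
  intro f g a b lam φ ha hb hlam hf hg hpf hpg hφ
  obtain ⟨D, hD⟩ := h3 f g a b lam ha hb hlam hf.continuous hg.continuous hpf hpg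
  obtain ⟨F, hF, hsum⟩ := spec (core f g a b lam ha hb) D
    (fun n e he => hD n (fun i => (e i).1) (fun i => (e i).2) (fun i j => he i j))
    (T h1 f g a b lam hf hg hpf hpg)
    (fun φ ψ => h2 f g a b lam φ.1 ψ.1 hf φ.2 ψ.2) ⟨φ, hφ⟩
  refine ⟨F.support, fun μ => (F μ).1, fun μ _ => (F μ).2, ?_, ?_⟩
  · intro μ _ p
    exact congrFun (congrArg Subtype.val (hF μ)) p
  · intro p
    have h4 : (V f g a b lam).subtype (F.sum (fun _ v => v)) = φ := by
      rw [hsum]
      rfl
    rw [Finsupp.sum, map_sum] at h4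
    have h5 := congrFun h4 p
    rw [Finset.sum_apply] at h5
    exact h5.symm

end Pool.Agent.R267.NL
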