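import Mathlib

set_option autoImplicit false
open MeasureTheory
open scoped ContDiff

/-!
# Project NL (MP_c7f82c_an): Yau's upper bound for the nodal length on Liouville tori

Definitions and exact statements of the independent pieces. See NOTES.md.
-/
namespace Pool.Agent.R267.NL

/-- `f` has (at least) `N` zeros per period `a`: a cyclic strictly increasing sequence of zeros. -/
def HasZ (a : ℝ) (N : ℕ) (f : ℝ → ℝ) : Prop :=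
  ∃ g : ℤ → ℝ, StrictMono g ∧ (∀ i, g (i + N) = g i + a) ∧ ∀ i, f (g i) = 0

/-- (NL-UNIQ) Uniqueness for a second order linear equation. -/
def S_UNIQ : Prop := ∀ (Q : ℝ) (R : ℝ → ℝ), ContDiff ℝ 2 R →
  (∀ x, |deriv (deriv R) x| ≤ Q * |R x|) → ∀ z, R z = 0 → deriv R z = 0 → ∀ x, R x = 0

/-- (NL-NV) Solutions with different spectral parameters are independent on every interval. -/
def S_NV : Prop := ∀ (Q : ℝ) (q : ℝ → ℝ) (S : Finset ℝ) (R : ℝ → ℝ → ℝ), Continuous q →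
  (∀ μ ∈ S, ContDiff ℝ 2 (R μ)) →
  (∀ μ ∈ S, ∀ x, deriv (deriv (R μ)) x = (μ - q x) * R μ x) →
  (∀ μ ∈ S, ∀ x, |μ - q x| ≤ Q) →
  ∀ c d : ℝ, c < d → (∀ x ∈ Set.Ioo c d, ∑ μ ∈ S, R μ x = 0) → ∀ μ ∈ S, ∀ x, R μ x = 0

/-- (NL-ROLLE) Sturm's principle for the operator `f ↦ f'' - p f`, `p > 0`. -/
def S_ROLLE : Prop := ∀ (a : ℝ) (N : ℕ) (f p : ℝ → ℝ), 0 < a → 0 < N → ContDiff ℝ 2 f →
  Continuous p → (∀ x, 0 < p x) → (∀ x, f (x + a) = f x) → (∀ x, p (x + a) = p x) →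
  (∀ c d : ℝ, c < d → ∃ x ∈ Set.Ioo c d, f x ≠ 0) → HasZ a N f →
  HasZ a N (fun x => deriv (deriv f) x - p x * f x)

/-- (NL-COUNT) Sturm's bound for the number of zeros of a sum of solutions. -/
def S_COUNT : Prop := ∀ (a Q : ℝ) (q : ℝ → ℝ) (S : Finset ℝ) (R : ℝ → ℝ → ℝ), 0 < a → 0 < Q →
  Continuous q → (∀ x, q (x + a) = q x) →
  (∀ μ ∈ S, ContDiff ℝ 2 (R μ)) → (∀ μ ∈ S, ∀ x, R μ (x + a) = R μ x) →
  (∀ μ ∈ S, ∀ x, deriv (deriv (R μ)) x = (μ - q x) * R μ x) →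
  (∀ μ ∈ S, ∀ x, |μ - q x| ≤ Q) → (∃ x, ∑ μ ∈ S, R μ x ≠ 0) →
  ∀ N : ℕ, 0 < N → HasZ a N (fun x => ∑ μ ∈ S, R μ x) → (N : ℝ) ≤ 2 * a * Real.sqrt Q

/-- (NL-FIN) From cyclic sequences to the number of zeros in a period. -/
def S_FIN : Prop := ∀ (a K : ℝ) (f : ℝ → ℝ), 0 < a → (∀ x, f (x + a) = f x) →
  (∀ N : ℕ, 0 < N → HasZ a N f → (N : ℝ) ≤ K) → 0 ≤ K →
  ∀ c : ℝ, {x | x ∈ Set.Ico c (c + a) ∧ f x = 0}.Finite ∧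
    (Set.ncard {x | x ∈ Set.Ico c (c + a) ∧ f x = 0} : ℝ) ≤ K

/-- (NL-MAX) Maximum principle on a narrow rectangle. -/
def S_MAX : Prop := ∀ (u q : ℝ → ℝ → ℝ) (Q x1 x2 y1 y2 : ℝ), x1 < x2 → y1 < y2 →
  ContDiff ℝ 2 (fun p : ℝ × ℝ => u p.1 p.2) → (∀ x y, 0 ≤ q x y) → (∀ x y, q x y ≤ Q) →
  (∀ x y, deriv (deriv (fun t => u t y)) x + deriv (deriv (fun t => u x t)) y
    + q x y * u x y = 0) → Q * (x2 - x1) ^ 2 ≤ 1 →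
  (∀ x ∈ Set.Icc x1 x2, ∀ y ∈ Set.Icc y1 y2, (x = x1 ∨ x = x2 ∨ y = y1 ∨ y = y2) → u x y ≠ 0) →
  ∀ x ∈ Set.Icc x1 x2, ∀ y ∈ Set.Icc y1 y2, u x y ≠ 0

/-- (NL-COVER) Length of the zero set from the number of zeros on horizontal and vertical lines. -/
def S_COVER : Prop := ∀ (u q : ℝ → ℝ → ℝ) (a b Q Z : ℝ), 0 < a → 0 < b → 0 ≤ Z →
  ContDiff ℝ 2 (fun p : ℝ × ℝ => u p.1 p.2) → (∀ x y, 0 ≤ q x y) → (∀ x y, q x y ≤ Q) →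
  (∀ x y, deriv (deriv (fun t => u t y)) x + deriv (deriv (fun t => u x t)) y
    + q x y * u x y = 0) →
  (∀ x y, u (x + a) y = u x y) → (∀ x y, u x (y + b) = u x y) → (∃ x y, u x y ≠ 0) →
  (∀ y, (∃ x, u x y ≠ 0) → ∀ c : ℝ, {x | x ∈ Set.Ico c (c + a) ∧ u x y = 0}.Finite ∧
    (Set.ncard {x | x ∈ Set.Ico c (c + a) ∧ u x y = 0} : ℝ) ≤ Z) →
  (∀ x, (∃ y, u x y ≠ 0) → ∀ c : ℝ, {y | y ∈ Set.Ico c (c + b) ∧ u x y = 0}.Finite ∧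
    (Set.ncard {y | y ∈ Set.Ico c (c + b) ∧ u x y = 0} : ℝ) ≤ Z) →
  μH[1] {p : EuclideanSpace ℝ (Fin 2) | p 0 ∈ Set.Icc 0 a ∧ p 1 ∈ Set.Icc 0 b ∧ u (p 0) (p 1) = 0}
    ≤ ENNReal.ofReal (100 * (a + b) * Z)

/-- Second derivative in `x`. -/
noncomputable def dxx (φ : ℝ × ℝ → ℝ) (p : ℝ × ℝ) : ℝ := deriv (deriv (fun t => φ (t, p.2))) p.1

/-- Second derivative in `y`. -/
noncomputable def dyy (φ : ℝ × ℝ → ℝ) (p : ℝ × ℝ) : ℝ := deriv (deriv (fun t => φ (p.1, t))) p.2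

/-- Smooth doubly periodic solutions of `φ_xx + φ_yy + lam (f(x) + g(y)) φ = 0`. -/
structure Sol (f g : ℝ → ℝ) (a b lam : ℝ) (φ : ℝ × ℝ → ℝ) : Prop where
  smooth : ContDiff ℝ ∞ φ
  perx : ∀ x y, φ (x + a, y) = φ (x, y)
  pery : ∀ x y, φ (x, y + b) = φ (x, y)
  pde : ∀ p, dxx φ p + dyy φ p + lam * (f p.1 + g p.2) * φ p = 0

/-- (NL-INV) The separated operator preserves the eigenspace. -/
def S_INV : Prop := ∀ (f g : ℝ → ℝ) (a b lam : ℝ) (φ : ℝ × ℝ → ℝ), ContDiff ℝ ∞ f →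
  ContDiff ℝ ∞ g → (∀ x, f (x + a) = f x) → (∀ y, g (y + b) = g y) → Sol f g a b lam φ →
  Sol f g a b lam (fun p => dxx φ p + lam * f p.1 * φ p)

/-- (NL-SYM) The separated operator is symmetric. -/
def S_SYM : Prop := ∀ (f g : ℝ → ℝ) (a b lam : ℝ) (φ ψ : ℝ × ℝ → ℝ), ContDiff ℝ ∞ f →
  Sol f g a b lam φ → Sol f g a b lam ψ →
  ∫ x in (0 : ℝ)..a, ∫ y in (0 : ℝ)..b, (dxx φ (x, y) + lam * f x * φ (x, y)) * ψ (x, y)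
    = ∫ x in (0 : ℝ)..a, ∫ y in (0 : ℝ)..b, φ (x, y) * (dxx ψ (x, y) + lam * f x * ψ (x, y))

/-- (NL-DIM) The eigenspace is finite dimensional. -/
def S_DIM : Prop := ∀ (f g : ℝ → ℝ) (a b lam : ℝ), 0 < a → 0 < b → 0 < lam → Continuous f →
  Continuous g → (∀ x, f (x + a) = f x) → (∀ y, g (y + b) = g y) →
  ∃ D : ℕ, ∀ (n : ℕ) (φ : Fin n → ℝ × ℝ → ℝ), (∀ i, Sol f g a b lam (φ i)) →
    (∀ i j, ∫ x in (0 : ℝ)..a, ∫ y in (0 : ℝ)..b, φ i (x, y) * φ j (x, y)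
      = if i = j then 1 else 0) → n ≤ D

/-- (NL-DEC) Separation of variables. -/
def S_DEC : Prop := ∀ (f g : ℝ → ℝ) (a b lam : ℝ) (φ : ℝ × ℝ → ℝ), 0 < a → 0 < b → 0 < lam →
  ContDiff ℝ ∞ f → ContDiff ℝ ∞ g → (∀ x, f (x + a) = f x) → (∀ y, g (y + b) = g y) →
  Sol f g a b lam φ →
  ∃ (S : Finset ℝ) (R : ℝ → ℝ × ℝ → ℝ), (∀ μ ∈ S, Sol f g a b lam (R μ)) ∧
    (∀ μ ∈ S, ∀ p, dxx (R μ) p + lam * f p.1 * R μ p = μ * R μ p) ∧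
    ∀ p, φ p = ∑ μ ∈ S, R μ p

end Pool.Agent.R267.NL
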