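import Pool.Agent.R267.NL.SolAux
import Pool.Agent.R267.DI.Grad

set_option autoImplicit false
open MeasureTheory
open scoped ContDiff

namespace Pool.Agent.R267.NL

namespace DimAux

open SolAux

/-- lower bound of the integral over a period -/
theorem lb {u : ℝ → ℝ} {a r m c : ℝ} (hu : Continuous u) (hp : ∀ x, u (x + a) = u x)
    (hr : 0 ≤ r) (hra : r ≤ a) (h0 : ∀ x, 0 ≤ u x) (hm : ∀ x ∈ Set.Icc c (c + r), m ≤ u x) :
    m * r ≤ ∫ x in (0 : ℝ)..a, u x := by
  have h1 : ∫ x in (0 : ℝ)..a, u x = ∫ x in c..c + a, u x := by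
    have hp' : Function.Periodic u a := hp
    have := hp'.intervalIntegral_add_eq 0 c
    rwa [zero_add] at this
  rw [h1, ← intervalIntegral.integral_add_adjacent_intervals
    (hu.intervalIntegrable c (c + r)) (hu.intervalIntegrable (c + r) (c + a))]
  have h2 : 0 ≤ ∫ x in (c + r)..(c + a), u x :=
    intervalIntegral.integral_nonneg (by linarith) fun x _ => h0 x
  have h3 : ∫ _ in c..(c + r), m ≤ ∫ x in c..(c + r), u x :=
    intervalIntegral.integral_mono_on (by linarith) intervalIntegrable_const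
      (hu.intervalIntegrable _ _) hm
  rw [intervalIntegral.integral_const, smul_eq_mul] at h3
  have : (c + r - c) * m = m * r := by ring
  linarith

theorem bdd {f : ℝ → ℝ} {a : ℝ} (ha : 0 < a) (hf : Continuous f)
    (hp : ∀ x, f (x + a) = f x) : ∃ M, ∀ x, |f x| ≤ M := by
  obtain ⟨M, hM⟩ := isCompact_Icc.exists_bound_of_continuousOn (f := f) (s := Set.Icc 0 a)
    hf.continuousOn
  refine ⟨M, fun x => ?_⟩
  have hp' : Function.Periodic f a := hp
  obtain ⟨y, hy, he⟩ := hp'.exists_mem_Ico₀ ha x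
  rw [he]
  exact hM y ⟨hy.1, hy.2.le⟩

theorem exists_max {F : ℝ × ℝ → ℝ} {a b : ℝ} (ha : 0 < a) (hb : 0 < b) (hF : Continuous F)
    (hx : ∀ x y, F (x + a, y) = F (x, y)) (hy : ∀ x y, F (x, y + b) = F (x, y)) :
    ∃ q : ℝ × ℝ, ∀ p, F p ≤ F q := by
  have hK : IsCompact (Set.Icc (0 : ℝ) a ×ˢ Set.Icc (0 : ℝ) b) :=
    isCompact_Icc.prod isCompact_Icc
  obtain ⟨q, _, hq⟩ := hK.exists_isMaxOn
    ⟨((0 : ℝ), (0 : ℝ)), ⟨⟨le_rfl, ha.le⟩, ⟨le_rfl, hb.le⟩⟩⟩ hF.continuousOn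
  refine ⟨q, fun p => ?_⟩
  obtain ⟨x, y, hxm, hym, he⟩ := exists_cell ha hb hx hy p
  rw [← he]
  exact isMaxOn_iff.1 hq (x, y) ⟨⟨hxm.1, hxm.2.le⟩, ⟨hym.1, hym.2.le⟩⟩

theorem smooth2 {ψ : ℝ × ℝ → ℝ} (h : ContDiff ℝ ∞ ψ) : ContDiff ℝ 2 ψ := by
  have h2 := contDiff_infty.1 h 2
  exact_mod_cast h2

theorem grad_x {f g : ℝ → ℝ} {a b lam M S : ℝ} (hlam : 0 < lam) (hS : 0 ≤ S) (hM0 : 0 ≤ M)
    (hM : ∀ x y, |f x + g y| ≤ M) {ψ : ℝ × ℝ → ℝ} (hψ : Sol f g a b lam ψ)
    (hb : ∀ p, |ψ p| ≤ S) (x0 y0 : ℝ) :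
    |deriv (fun t => ψ (t, y0)) x0| ≤ (2 + lam * M / 2) * S := by
  have h := DI.s_GRAD (fun x y => ψ (x, y)) S (lam * M * S) 1 x0 y0 one_pos hS (by positivity)
    (smooth2 hψ.smooth) (fun x y _ _ => hb _) (fun x y _ _ => by
      have h1 := hψ.pde (x, y)
      have h2 : deriv (deriv (fun t => ψ (t, y))) x + deriv (deriv (fun t => ψ (x, t))) y =
          -(lam * (f x + g y) * ψ (x, y)) := by
        have h3 : dxx ψ (x, y) = deriv (deriv (fun t => ψ (t, y))) x := rfl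
        have h4 : dyy ψ (x, y) = deriv (deriv (fun t => ψ (x, t))) y := rfl
        rw [← h3, ← h4]
        linear_combination h1
      rw [h2, abs_neg, abs_mul, abs_mul, abs_of_pos hlam]
      have h5 := hM x y
      have h6 := hb (x, y)
      gcongr)
  refine h.trans (le_of_eq ?_)
  ring

theorem grad_y {f g : ℝ → ℝ} {a b lam M S : ℝ} (hlam : 0 < lam) (hS : 0 ≤ S) (hM0 : 0 ≤ M)
    (hM : ∀ x y, |f x + g y| ≤ M) {ψ : ℝ × ℝ → ℝ} (hψ : Sol f g a b lam ψ)
    (hb : ∀ p, |ψ p| ≤ S) (x0 y0 : ℝ) :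
    |deriv (fun t => ψ (x0, t)) y0| ≤ (2 + lam * M / 2) * S := by
  have hsm : ContDiff ℝ 2 (fun p : ℝ × ℝ => ψ (p.2, p.1)) :=
    (smooth2 hψ.smooth).comp (contDiff_snd.prodMk contDiff_fst)
  have h := DI.s_GRAD (fun x y => ψ (y, x)) S (lam * M * S) 1 y0 x0 one_pos hS (by positivity)
    hsm (fun x y _ _ => hb _) (fun y x _ _ => by
      have h1 := hψ.pde (x, y)
      have h2 : deriv (deriv (fun t => ψ (x, t))) y + deriv (deriv (fun t => ψ (t, y))) x =
          -(lam * (f x + g y) * ψ (x, y)) := by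
        have h3 : dxx ψ (x, y) = deriv (deriv (fun t => ψ (t, y))) x := rfl
        have h4 : dyy ψ (x, y) = deriv (deriv (fun t => ψ (x, t))) y := rfl
        rw [← h3, ← h4]
        linear_combination h1
      rw [h2, abs_neg, abs_mul, abs_mul, abs_of_pos hlam]
      have h5 := hM x y
      have h6 := hb (x, y)
      gcongr)
  refine h.trans (le_of_eq ?_)
  ring

theorem mv {u : ℝ → ℝ} {C : ℝ} (hu : Differentiable ℝ u) (hC : ∀ x, |deriv u x| ≤ C) (x y : ℝ) :
    |u y - u x| ≤ C * |y - x| :=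
  Convex.norm_image_sub_le_of_norm_deriv_le (s := Set.univ) (fun x _ => hu x)
    (fun x _ => hC x) convex_univ (Set.mem_univ x) (Set.mem_univ y)

theorem sup_bound {f g : ℝ → ℝ} {a b lam : ℝ} (ha : 0 < a) (hb : 0 < b) (hlam : 0 < lam)
    (hf : Continuous f) (hg : Continuous g) (hpf : ∀ x, f (x + a) = f x)
    (hpg : ∀ y, g (y + b) = g y) : ∃ K : ℝ, 0 ≤ K ∧ ∀ ψ : ℝ × ℝ → ℝ, Sol f g a b lam ψ →
      ∀ p, ψ p ^ 2 ≤ K * I2 a b (fun q => ψ q * ψ q) := by
  obtain ⟨Mf, hMf⟩ := bdd ha hf hpf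
  obtain ⟨Mg, hMg⟩ := bdd hb hg hpg
  have hMf0 : 0 ≤ Mf := (abs_nonneg _).trans (hMf 0)
  have hMg0 : 0 ≤ Mg := (abs_nonneg _).trans (hMg 0)
  have hM : ∀ x y, |f x + g y| ≤ Mf + Mg := fun x y =>
    (abs_add_le _ _).trans (add_le_add (hMf x) (hMg y))
  set M := Mf + Mg with hMdef
  have hM0 : 0 ≤ M := add_nonneg hMf0 hMg0
  set G := 2 + lam * M / 2 with hG
  have hG0 : 0 < G := by positivity
  set r := min (1 / (4 * G)) (min a b) with hr
  have hr0 : 0 < r := lt_min (by positivity) (lt_min ha hb)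
  have hra : r ≤ a := (min_le_right _ _).trans (min_le_left _ _)
  have hrb : r ≤ b := (min_le_right _ _).trans (min_le_right _ _)
  have hGr : G * r ≤ 1 / 4 := by
    have h1 : r ≤ 1 / (4 * G) := min_le_left _ _
    have h2 : G * r ≤ G * (1 / (4 * G)) := mul_le_mul_of_nonneg_left h1 hG0.le
    refine h2.trans (le_of_eq ?_)
    field_simp
  refine ⟨4 / r ^ 2, by positivity, fun ψ hψ => ?_⟩
  have hcont := hψ.smooth.continuous
  obtain ⟨q, hq⟩ := exists_max (F := fun p => |ψ p|) ha hb hcont.abs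
    (fun x y => by rw [hψ.perx]) (fun x y => by rw [hψ.pery])
  set S := |ψ q| with hS
  have hS0 : 0 ≤ S := abs_nonneg _
  have hbd : ∀ p, |ψ p| ≤ S := hq
  have hlow : ∀ x ∈ Set.Icc q.1 (q.1 + r), ∀ y ∈ Set.Icc q.2 (q.2 + r), S / 2 ≤ |ψ (x, y)| := by
    intro x hx y hy
    have h1 := mv (diff_of (smooth_x hψ.smooth y))
      (fun t => grad_x hlam hS0 hM0 hM hψ hbd t y) q.1 x
    have h2 := mv (diff_of (smooth_y hψ.smooth q.1))
      (fun t => grad_y hlam hS0 hM0 hM hψ hbd q.1 t) q.2 y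
    rw [abs_of_nonneg (by linarith [hx.1] : 0 ≤ x - q.1), ← hG] at h1
    rw [abs_of_nonneg (by linarith [hy.1] : 0 ≤ y - q.2), ← hG] at h2
    have h3 : G * S * (x - q.1) ≤ S / 4 := by
      have : G * S * (x - q.1) ≤ G * S * r :=
        mul_le_mul_of_nonneg_left (by linarith [hx.2]) (by positivity)
      have h4 : G * S * r = (G * r) * S := by ring
      have h5 : (G * r) * S ≤ 1 / 4 * S := mul_le_mul_of_nonneg_right hGr hS0
      linarith
    have h4 : G * S * (y - q.2) ≤ S / 4 := by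
      have : G * S * (y - q.2) ≤ G * S * r :=
        mul_le_mul_of_nonneg_left (by linarith [hy.2]) (by positivity)
      have h4 : G * S * r = (G * r) * S := by ring
      have h5 : (G * r) * S ≤ 1 / 4 * S := mul_le_mul_of_nonneg_right hGr hS0
      linarith
    have h5 : |ψ q| ≤ |ψ (x, y)| + |ψ (x, y) - ψ (q.1, y)| + |ψ (q.1, y) - ψ (q.1, q.2)| := by
      have h6 : ψ q = ψ (x, y) - (ψ (x, y) - ψ (q.1, y)) - (ψ (q.1, y) - ψ (q.1, q.2)) := by
        have : ψ q = ψ (q.1, q.2) := rfl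
        rw [this]; ring
      calc |ψ q| = |ψ (x, y) - (ψ (x, y) - ψ (q.1, y)) - (ψ (q.1, y) - ψ (q.1, q.2))| := by
            rw [← h6]
        _ ≤ |ψ (x, y) - (ψ (x, y) - ψ (q.1, y))| + |ψ (q.1, y) - ψ (q.1, q.2)| := abs_sub _ _
        _ ≤ |ψ (x, y)| + |ψ (x, y) - ψ (q.1, y)| + |ψ (q.1, y) - ψ (q.1, q.2)| := by
            have := abs_sub (ψ (x, y)) (ψ (x, y) - ψ (q.1, y))
            linarith
    have h6 : |ψ q| = S := rfl
    linarith
  have hlow2 : ∀ x ∈ Set.Icc q.1 (q.1 + r), ∀ y ∈ Set.Icc q.2 (q.2 + r),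
      S ^ 2 / 4 ≤ ψ (x, y) * ψ (x, y) := by
    intro x hx y hy
    have h1 := hlow x hx y hy
    have h2 : (S / 2) ^ 2 ≤ |ψ (x, y)| ^ 2 := pow_le_pow_left₀ (by positivity) h1 2
    rw [sq_abs] at h2
    nlinarith
  have hin : ∀ x ∈ Set.Icc q.1 (q.1 + r),
      S ^ 2 / 4 * r ≤ ∫ y in (0 : ℝ)..b, ψ (x, y) * ψ (x, y) := by
    intro x hx
    exact lb (u := fun y => ψ (x, y) * ψ (x, y)) (c := q.2)
      ((cont_sec hcont x).mul (cont_sec hcont x))
      (fun y => by simp only [hψ.pery]) hr0.le hrb (fun y => mul_self_nonneg _)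
      (fun y hy => hlow2 x hx y hy)
  have hout : S ^ 2 / 4 * r * r ≤ I2 a b (fun q => ψ q * ψ q) := by
    exact lb (u := fun x => ∫ y in (0 : ℝ)..b, ψ (x, y) * ψ (x, y)) (c := q.1)
      (cont_inner (hcont.mul hcont) b) (fun x => by simp only [hψ.perx]) hr0.le hra
      (fun x => intervalIntegral.integral_nonneg hb.le fun y _ => mul_self_nonneg _)
      (fun x hx => hin x hx)
  intro p
  have h1 : ψ p ^ 2 ≤ S ^ 2 := by
    rw [← sq_abs (ψ p)]
    exact pow_le_pow_left₀ (abs_nonneg _) (hbd p) 2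
  have h2 : S ^ 2 = 4 / r ^ 2 * (S ^ 2 / 4 * r * r) := by
    field_simp
  calc ψ p ^ 2 ≤ S ^ 2 := h1
    _ = 4 / r ^ 2 * (S ^ 2 / 4 * r * r) := h2
    _ ≤ 4 / r ^ 2 * I2 a b (fun q => ψ q * ψ q) :=
        mul_le_mul_of_nonneg_left hout (by positivity)

end DimAux

open SolAux DimAux in
theorem s_DIM : S_DIM := by
  intro f g a b lam ha hb hlam hf hg hpf hpg
  obtain ⟨K, hK0, hK⟩ := sup_bound ha hb hlam hf hg hpf hpg
  refine ⟨⌈K * (a * b)⌉₊, fun n φ hφ horth => ?_⟩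
  have horth' : ∀ i j, I2 a b (fun q => φ i q * φ j q) = if i = j then 1 else 0 := horth
  have hcont : ∀ i, Continuous (φ i) := fun i => (hφ i).smooth.continuous
  have hle : ∀ p, ∑ i, φ i p * φ i p ≤ K := by
    intro p
    have hsol : Sol f g a b lam (fun q => ∑ i, φ i p * φ i q) :=
      sol_sum Finset.univ (fun i q => φ i p * φ i q) fun i _ => sol_smul (φ i p) (hφ i)
    have hI : I2 a b (fun q => (∑ i, φ i p * φ i q) * (∑ i, φ i p * φ i q)) =
        ∑ i, φ i p * φ i p := by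
      have h1 : (fun q : ℝ × ℝ => (∑ i, φ i p * φ i q) * (∑ i, φ i p * φ i q)) =
          fun q => ∑ i, ∑ j, (φ i p * φ j p) * (φ i q * φ j q) := by
        funext q
        rw [Finset.sum_mul_sum]
        refine Finset.sum_congr rfl fun i _ => Finset.sum_congr rfl fun j _ => ?_
        ring
      rw [h1, I2_sum Finset.univ (fun i q => ∑ j, (φ i p * φ j p) * (φ i q * φ j q))
        (fun i _ => continuous_finsetSum _ fun j _ =>
          continuous_const.mul ((hcont i).mul (hcont j)))]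
      refine Finset.sum_congr rfl fun i _ => ?_
      rw [I2_sum Finset.univ (fun j q => (φ i p * φ j p) * (φ i q * φ j q))
        (fun j _ => continuous_const.mul ((hcont i).mul (hcont j)))]
      rw [Finset.sum_eq_single i]
      · rw [I2_smul, horth' i i, if_pos rfl, mul_one]
      · intro j _ hj
        rw [I2_smul, horth' i j, if_neg (Ne.symm hj), mul_zero]
      · intro h
        exact absurd (Finset.mem_univ i) h
    have h2 := hK _ hsol p
    rw [hI] at h2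
    have h3 : 0 ≤ ∑ i, φ i p * φ i p := Finset.sum_nonneg fun i _ => mul_self_nonneg _
    rcases h3.eq_or_lt with h4 | h4
    · rw [← h4]
      exact hK0
    · have h5 : (∑ i, φ i p * φ i p) * (∑ i, φ i p * φ i p) ≤ K * (∑ i, φ i p * φ i p) := by
        rw [← sq]
        exact h2
      exact le_of_mul_le_mul_right h5 h4
  have hn : (n : ℝ) = I2 a b (fun p => ∑ i, φ i p * φ i p) := by
    rw [I2_sum Finset.univ (fun i p => φ i p * φ i p) (fun i _ => (hcont i).mul (hcont i))]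
    simp only [horth', if_true]
    simp
  have h1 : (n : ℝ) ≤ K * (a * b) := by
    rw [hn, ← I2_const K]
    exact I2_mono ha.le hb.le
      (continuous_finsetSum _ fun i _ => (hcont i).mul (hcont i)) continuous_const hle
  exact_mod_cast h1.trans (Nat.le_ceil _)

end Pool.Agent.R267.NL
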