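import Pool.Agent.R267.NL.Defs

/-!
# Project NL (MP_c7f82c_an), piece FIN: from cyclic sequences to the number of zeros in a period
-/

set_option autoImplicit false

open MeasureTheory

namespace Pool.Agent.R267.NL

/-- a finite set of `N` zeros in a period gives a cyclic sequence -/
theorem fin_hasZ (a c : ℝ) (f : ℝ → ℝ) (ha : 0 < a) (hf : ∀ x, f (x + a) = f x) (F : Finset ℝ)
    (hF : ∀ x ∈ F, x ∈ Set.Ico c (c + a) ∧ f x = 0) (N : ℕ) (hN : F.card = N) (hN0 : 0 < N) :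
    HasZ a N f := by
  obtain ⟨z, hz1, hz2⟩ : ∃ z : ℕ → ℝ, (∀ k, k < N → z k ∈ F) ∧ ∀ k l, k < l → l < N → z k < z l := by
    refine ⟨fun k => if h : k < N then F.orderEmbOfFin hN ⟨k, h⟩ else 0, ?_, ?_⟩
    · intro k hk
      simp only [dif_pos hk]
      exact F.orderEmbOfFin_mem hN _
    · intro k l hkl hl
      simp only [dif_pos hl, dif_pos (hkl.trans hl)]
      exact (F.orderEmbOfFin hN).strictMono hkl
  have hNZ : (0 : ℤ) < N := by exact_mod_cast hN0
  have hmod : ∀ i : ℤ, 0 ≤ i % (N : ℤ) ∧ i % (N : ℤ) < N := fun i =>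
    ⟨Int.emod_nonneg _ hNZ.ne', Int.emod_lt_of_pos _ hNZ⟩
  have hmodn : ∀ i : ℤ, (i % (N : ℤ)).toNat < N := by
    intro i
    have := hmod i
    omega
  have hper : ∀ (x : ℝ) (m : ℤ), f (x + m * a) = f x := by
    have hp : Function.Periodic f a := hf
    intro x m
    exact hp.int_mul m x
  refine ⟨fun i => z (i % (N : ℤ)).toNat + ((i / (N : ℤ) : ℤ) : ℝ) * a, ?_, ?_, ?_⟩
  · intro i j hij
    show z (i % (N : ℤ)).toNat + ((i / (N : ℤ) : ℤ) : ℝ) * a <
      z (j % (N : ℤ)).toNat + ((j / (N : ℤ) : ℤ) : ℝ) * a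
    have h1 : i / (N : ℤ) ≤ j / (N : ℤ) := Int.ediv_le_ediv hNZ hij.le
    have hi := hmod i
    have hj := hmod j
    rcases h1.lt_or_eq with h | h
    · have h2 : (((i / (N : ℤ) : ℤ) : ℝ)) + 1 ≤ ((j / (N : ℤ) : ℤ) : ℝ) := by exact_mod_cast h
      have h3 := (hF _ (hz1 _ (hmodn i))).1.2
      have h4 := (hF _ (hz1 _ (hmodn j))).1.1
      nlinarith
    · have h2 : i % (N : ℤ) < j % (N : ℤ) := by
        have e1 := Int.mul_ediv_add_emod i N
        have e2 := Int.mul_ediv_add_emod j N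
        rw [h] at e1
        linarith
      have h3 : z (i % (N : ℤ)).toNat < z (j % (N : ℤ)).toNat := hz2 _ _ (by omega) (hmodn j)
      rw [h]
      linarith
  · intro i
    show z ((i + N) % (N : ℤ)).toNat + (((i + N) / (N : ℤ) : ℤ) : ℝ) * a =
      z (i % (N : ℤ)).toNat + ((i / (N : ℤ) : ℤ) : ℝ) * a + a
    rw [Int.add_emod_right, Int.add_ediv_of_dvd_right (dvd_refl _), Int.ediv_self hNZ.ne']
    push_cast
    ring
  · intro i
    show f (z (i % (N : ℤ)).toNat + ((i / (N : ℤ) : ℤ) : ℝ) * a) = 0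
    rw [hper]
    exact (hF _ (hz1 _ (hmodn i))).2

theorem s_FIN : S_FIN := by
  intro a K f ha hf hK hK0 c
  have hkey : ∀ F : Finset ℝ, (∀ x ∈ F, x ∈ Set.Ico c (c + a) ∧ f x = 0) → (F.card : ℝ) ≤ K := by
    intro F hF
    rcases Nat.eq_zero_or_pos F.card with h | h
    · rw [h]
      simpa using hK0
    · exact hK _ h (fin_hasZ a c f ha hf F hF _ rfl h)
  have hfin : {x | x ∈ Set.Ico c (c + a) ∧ f x = 0}.Finite := by
    by_contra hinf
    obtain ⟨n, hn⟩ := exists_nat_gt K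
    obtain ⟨t, ht, htc⟩ := Set.Infinite.exists_subset_card_eq hinf n
    have := hkey t (fun x hx => ht hx)
    rw [htc] at this
    linarith
  refine ⟨hfin, ?_⟩
  rw [Set.ncard_eq_toFinset_card _ hfin]
  exact hkey _ (fun x hx => hfin.mem_toFinset.1 hx)

end Pool.Agent.R267.NL
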