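import Pool.Agent.R267.NL.Defs

set_option autoImplicit false
open scoped ContDiff

/-! NL-INV: the separated operator preserves the eigenspace. -/

namespace Pool.Agent.R267.NL

namespace InvAux

noncomputable def D1 (G : ℝ × ℝ → ℝ) (p : ℝ × ℝ) : ℝ := fderiv ℝ G p (1, 0)

noncomputable def D2 (G : ℝ × ℝ → ℝ) (p : ℝ × ℝ) : ℝ := fderiv ℝ G p (0, 1)

theorem hasDerivAt_D1 {G : ℝ × ℝ → ℝ} (hG : ContDiff ℝ ∞ G) (x y : ℝ) :
    HasDerivAt (fun t => G (t, y)) (D1 G (x, y)) x := by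
  have h1 : HasFDerivAt G (fderiv ℝ G (x, y)) (x, y) :=
    (hG.differentiable (by simp)).differentiableAt.hasFDerivAt
  have h2 : HasDerivAt (fun t : ℝ => (t, y)) ((1 : ℝ), (0 : ℝ)) x :=
    (hasDerivAt_id x).prodMk (hasDerivAt_const x y)
  exact h1.comp_hasDerivAt x h2

theorem hasDerivAt_D2 {G : ℝ × ℝ → ℝ} (hG : ContDiff ℝ ∞ G) (x y : ℝ) :
    HasDerivAt (fun t => G (x, t)) (D2 G (x, y)) y := by
  have h1 : HasFDerivAt G (fderiv ℝ G (x, y)) (x, y) :=
    (hG.differentiable (by simp)).differentiableAt.hasFDerivAt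
  have h2 : HasDerivAt (fun t : ℝ => (x, t)) ((0 : ℝ), (1 : ℝ)) y :=
    (hasDerivAt_const y x).prodMk (hasDerivAt_id y)
  exact h1.comp_hasDerivAt y h2

theorem contDiff_D1 {G : ℝ × ℝ → ℝ} (hG : ContDiff ℝ ∞ G) : ContDiff ℝ ∞ (D1 G) := by
  unfold D1
  exact (hG.fderiv_right (m := ∞) (by simp)).clm_apply contDiff_const

theorem contDiff_D2 {G : ℝ × ℝ → ℝ} (hG : ContDiff ℝ ∞ G) : ContDiff ℝ ∞ (D2 G) := by
  unfold D2
  exact (hG.fderiv_right (m := ∞) (by simp)).clm_apply contDiff_const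

theorem dxx_eq {G : ℝ × ℝ → ℝ} (hG : ContDiff ℝ ∞ G) : dxx G = D1 (D1 G) := by
  funext p
  obtain ⟨x, y⟩ := p
  unfold dxx
  have h1 : deriv (fun t => G (t, y)) = fun t => D1 G (t, y) :=
    funext fun t => (hasDerivAt_D1 hG t y).deriv
  show deriv (deriv (fun t => G (t, y))) x = D1 (D1 G) (x, y)
  rw [h1]
  exact (hasDerivAt_D1 (contDiff_D1 hG) x y).deriv

theorem dyy_eq {G : ℝ × ℝ → ℝ} (hG : ContDiff ℝ ∞ G) : dyy G = D2 (D2 G) := by
  funext p
  obtain ⟨x, y⟩ := p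
  unfold dyy
  have h1 : deriv (fun t => G (x, t)) = fun t => D2 G (x, t) :=
    funext fun t => (hasDerivAt_D2 hG x t).deriv
  show deriv (deriv (fun t => G (x, t))) y = D2 (D2 G) (x, y)
  rw [h1]
  exact (hasDerivAt_D2 (contDiff_D2 hG) x y).deriv

theorem comm {G : ℝ × ℝ → ℝ} (hG : ContDiff ℝ ∞ G) : D1 (D2 G) = D2 (D1 G) := by
  funext p
  have h1 : ∀ q, HasFDerivAt G (fderiv ℝ G q) q := fun q =>
    (hG.differentiable (by simp)).differentiableAt.hasFDerivAt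
  have h2 : ContDiff ℝ ∞ (fderiv ℝ G) := hG.fderiv_right (m := ∞) (by simp)
  have h3 : HasFDerivAt (fderiv ℝ G) (fderiv ℝ (fderiv ℝ G) p) p :=
    (h2.differentiable (by simp)).differentiableAt.hasFDerivAt
  have h4 := second_derivative_symmetric h1 h3 (1, 0) (0, 1)
  have h5 : D1 (D2 G) p = (fderiv ℝ (fderiv ℝ G) p (1, 0)) (0, 1) := by
    unfold D1 D2
    have h6 := (h3.clm_apply (hasFDerivAt_const ((0 : ℝ), (1 : ℝ)) p)).fderiv
    rw [h6]
    simp
  have h7 : D2 (D1 G) p = (fderiv ℝ (fderiv ℝ G) p (0, 1)) (1, 0) := by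
    unfold D1 D2
    have h6 := (h3.clm_apply (hasFDerivAt_const ((1 : ℝ), (0 : ℝ)) p)).fderiv
    rw [h6]
    simp
  rw [h5, h7, h4]

theorem perx_D1 {G : ℝ × ℝ → ℝ} (hG : ContDiff ℝ ∞ G) {a : ℝ} (h : ∀ x y, G (x + a, y) = G (x, y))
    (x y : ℝ) : D1 G (x + a, y) = D1 G (x, y) := by
  have h1 := (hasDerivAt_D1 hG (x + a) y).comp_add_const x a
  have h2 : (fun t => G (t + a, y)) = fun t => G (t, y) := funext fun t => h t y
  rw [h2] at h1
  exact h1.unique (hasDerivAt_D1 hG x y)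

theorem pery_D1 {G : ℝ × ℝ → ℝ} (hG : ContDiff ℝ ∞ G) {b : ℝ} (h : ∀ x y, G (x, y + b) = G (x, y))
    (x y : ℝ) : D1 G (x, y + b) = D1 G (x, y) := by
  have h1 := hasDerivAt_D1 hG x (y + b)
  have h2 : (fun t => G (t, y + b)) = fun t => G (t, y) := funext fun t => h t y
  rw [h2] at h1
  exact h1.unique (hasDerivAt_D1 hG x y)

end InvAux

open InvAux in
theorem s_INV : S_INV := by
  intro f g a b lam φ hf hg hfa hgb hφ
  have hs := hφ.smooth
  have h1 : ContDiff ℝ ∞ (D1 φ) := contDiff_D1 hs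
  have h11 : ContDiff ℝ ∞ (D1 (D1 φ)) := contDiff_D1 h1
  have h2 : ContDiff ℝ ∞ (D2 φ) := contDiff_D2 hs
  have h22 : ContDiff ℝ ∞ (D2 (D2 φ)) := contDiff_D2 h2
  have hx := dxx_eq hs
  have hy := dyy_eq hs
  have hψ : (fun p : ℝ × ℝ => dxx φ p + lam * f p.1 * φ p) =
      fun p => D1 (D1 φ) p + lam * f p.1 * φ p := by rw [hx]
  rw [hψ]
  have hpde : ∀ x y, D1 (D1 φ) (x, y) + D2 (D2 φ) (x, y) + lam * (f x + g y) * φ (x, y) = 0 := by
    intro x y
    have h3 := hφ.pde (x, y)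
    rw [hx, hy] at h3
    exact h3
  have hsm : ContDiff ℝ ∞ (fun p : ℝ × ℝ => D1 (D1 φ) p + lam * f p.1 * φ p) :=
    h11.add ((contDiff_const.mul (hf.comp contDiff_fst)).mul hs)
  have hcomm : D1 (D1 (D2 (D2 φ))) = D2 (D2 (D1 (D1 φ))) := by
    rw [comm h2, comm hs, comm (contDiff_D2 h1), comm h1]
  refine ⟨hsm, ?_, ?_, ?_⟩
  · intro x y
    have h3 := perx_D1 h1 (perx_D1 hs hφ.perx) x y
    show D1 (D1 φ) (x + a, y) + lam * f (x + a) * φ (x + a, y) = D1 (D1 φ) (x, y) + lam * f x * φ (x, y)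
    rw [h3, hfa, hφ.perx]
  · intro x y
    have h3 := pery_D1 h1 (pery_D1 hs hφ.pery) x y
    show D1 (D1 φ) (x, y + b) + lam * f x * φ (x, y + b) = D1 (D1 φ) (x, y) + lam * f x * φ (x, y)
    rw [h3, hφ.pery]
  · rintro ⟨x, y⟩
    -- the second derivative in `y`
    have hyy : dyy (fun p : ℝ × ℝ => D1 (D1 φ) p + lam * f p.1 * φ p) (x, y) =
        D2 (D2 (D1 (D1 φ))) (x, y) + lam * f x * D2 (D2 φ) (x, y) := by
      unfold dyy
      have e1 : deriv (fun t => D1 (D1 φ) (x, t) + lam * f x * φ (x, t)) =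
          fun t => D2 (D1 (D1 φ)) (x, t) + lam * f x * D2 φ (x, t) :=
        funext fun t => ((hasDerivAt_D2 h11 x t).add
          ((hasDerivAt_D2 hs x t).const_mul (lam * f x))).deriv
      show deriv (deriv (fun t => D1 (D1 φ) (x, t) + lam * f x * φ (x, t))) y = _
      rw [e1]
      exact ((hasDerivAt_D2 (contDiff_D2 h11) x y).add
          ((hasDerivAt_D2 h2 x y).const_mul (lam * f x))).deriv
    -- the second derivative in `x`
    have hxx : dxx (fun p : ℝ × ℝ => D1 (D1 φ) p + lam * f p.1 * φ p) (x, y) =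
        -D1 (D1 (D2 (D2 φ))) (x, y) - lam * g y * D1 (D1 φ) (x, y) := by
      unfold dxx
      have e0 : (fun t => D1 (D1 φ) (t, y) + lam * f t * φ (t, y)) =
          fun t => -D2 (D2 φ) (t, y) - lam * g y * φ (t, y) := by
        funext t
        have := hpde t y
        linarith
      have e1 : deriv (fun t => -D2 (D2 φ) (t, y) - lam * g y * φ (t, y)) =
          fun t => -D1 (D2 (D2 φ)) (t, y) - lam * g y * D1 φ (t, y) :=
        funext fun t => ((hasDerivAt_D1 h22 t y).neg.sub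
          ((hasDerivAt_D1 hs t y).const_mul (lam * g y))).deriv
      show deriv (deriv (fun t => D1 (D1 φ) (t, y) + lam * f t * φ (t, y))) x = _
      rw [e0, e1]
      exact ((hasDerivAt_D1 (contDiff_D1 h22) x y).neg.sub
          ((hasDerivAt_D1 h1 x y).const_mul (lam * g y))).deriv
    show dxx (fun p : ℝ × ℝ => D1 (D1 φ) p + lam * f p.1 * φ p) (x, y) +
      dyy (fun p : ℝ × ℝ => D1 (D1 φ) p + lam * f p.1 * φ p) (x, y) +
      lam * (f x + g y) * (D1 (D1 φ) (x, y) + lam * f x * φ (x, y)) = 0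
    rw [hyy, hxx, hcomm]
    have h3 := hpde x y
    linear_combination lam * f x * h3

end Pool.Agent.R267.NL
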