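import Pool.Agent.R267.NL.Defs

/-!
NL-MAX (helper718): maximum principle on a narrow rectangle.
-/

set_option autoImplicit false
open MeasureTheory Filter Topology Set
open scoped ContDiff

namespace Pool.Agent.R267.NL

namespace MaxP

theorem dd_nonneg {f : ℝ → ℝ} {x : ℝ} (hc : ContinuousAt f x) (hm : IsLocalMin f x) :
    0 ≤ deriv (deriv f) x := by
  by_contra h
  push Not at h
  have h1 := isLocalMax_of_deriv_deriv_neg h hm.deriv_eq_zero hc
  have h2 : f =ᶠ[𝓝 x] fun _ => f x := by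
    filter_upwards [hm, h1] with t ht1 ht2
    exact le_antisymm ht2 ht1
  have h3 := h2.deriv.deriv_eq
  rw [h3] at h
  simp at h

theorem c2_d {f : ℝ → ℝ} (hf : ContDiff ℝ 2 f) : Differentiable ℝ f ∧ Differentiable ℝ (deriv f) := by
  have h : ContDiff ℝ (1 + 1) f := by
    rw [one_add_one_eq_two]; exact hf
  have h2 := contDiff_succ_iff_deriv.1 h
  exact ⟨h2.1, h2.2.2.differentiable (by norm_num)⟩

theorem dd_add {f : ℝ → ℝ} (hf : ContDiff ℝ 2 f) (A B c x : ℝ) :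
    deriv (deriv (fun t => f t + (A + B * (t - c) ^ 2))) x = deriv (deriv f) x + 2 * B := by
  obtain ⟨h1, h2⟩ := c2_d hf
  have e1 : deriv (fun t => f t + (A + B * (t - c) ^ 2)) = fun t => deriv f t + B * (2 * (t - c)) := by
    funext t
    have k1 : HasDerivAt (fun t : ℝ => (t - c) ^ 2) (2 * (t - c)) t := by
      exact (((hasDerivAt_id t).sub_const c).pow 2).congr_deriv (by simp)
    exact ((h1 t).hasDerivAt.add ((k1.const_mul B).const_add A)).deriv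
  rw [e1]
  have k2 : HasDerivAt (fun t : ℝ => B * (2 * (t - c))) (2 * B) x := by
    exact ((((hasDerivAt_id x).sub_const c).const_mul 2).const_mul B).congr_deriv (by ring)
  exact ((h2 x).hasDerivAt.add k2).deriv

/-- at an interior minimum over the rectangle both second derivatives are nonnegative -/
theorem interior_min {v : ℝ → ℝ → ℝ} {x1 x2 y1 y2 : ℝ} (hv : Continuous fun p : ℝ × ℝ => v p.1 p.2)
    {p : ℝ × ℝ} (hx : x1 < p.1 ∧ p.1 < x2) (hy : y1 < p.2 ∧ p.2 < y2)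
    (hm : ∀ x ∈ Icc x1 x2, ∀ y ∈ Icc y1 y2, v p.1 p.2 ≤ v x y) :
    0 ≤ deriv (deriv (fun t => v t p.2)) p.1 ∧ 0 ≤ deriv (deriv (fun t => v p.1 t)) p.2 := by
  constructor
  · refine dd_nonneg ?_ ?_
    · exact (hv.comp (by fun_prop : Continuous fun t : ℝ => (t, p.2))).continuousAt
    · filter_upwards [Icc_mem_nhds hx.1 hx.2] with t ht
      exact hm t ht p.2 ⟨hy.1.le, hy.2.le⟩
  · refine dd_nonneg ?_ ?_
    · exact (hv.comp (by fun_prop : Continuous fun t : ℝ => (p.1, t))).continuousAt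
    · filter_upwards [Icc_mem_nhds hy.1 hy.2] with t ht
      exact hm p.1 ⟨hx.1.le, hx.2.le⟩ t ht

theorem pos {u q : ℝ → ℝ → ℝ} {Q x1 x2 y1 y2 : ℝ} (hx : x1 < x2) (hy : y1 < y2)
    (hu : ContDiff ℝ 2 (fun p : ℝ × ℝ => u p.1 p.2)) (hq0 : ∀ x y, 0 ≤ q x y)
    (hqQ : ∀ x y, q x y ≤ Q)
    (hpde : ∀ x y, deriv (deriv (fun t => u t y)) x + deriv (deriv (fun t => u x t)) y
      + q x y * u x y = 0) (hQ : Q * (x2 - x1) ^ 2 ≤ 1)
    (hb : ∀ x ∈ Icc x1 x2, ∀ y ∈ Icc y1 y2, (x = x1 ∨ x = x2 ∨ y = y1 ∨ y = y2) → 0 < u x y) :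
    ∀ x ∈ Icc x1 x2, ∀ y ∈ Icc y1 y2, 0 < u x y := by
  have hw : 0 < x2 - x1 := by linarith
  have hw2 : 0 < (x2 - x1) ^ 2 := by positivity
  have hQ0 : 0 ≤ Q := (hq0 0 0).trans (hqQ 0 0)
  have hsx : ∀ y, ContDiff ℝ 2 (fun t => u t y) := fun y =>
    hu.comp (contDiff_id.prodMk contDiff_const)
  have hsy : ∀ x, ContDiff ℝ 2 (fun t => u x t) := fun x =>
    hu.comp (contDiff_const.prodMk contDiff_id)
  have huc : Continuous fun p : ℝ × ℝ => u p.1 p.2 := hu.continuous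
  set c : ℝ := (x1 + x2) / 2 with hc
  set K : Set (ℝ × ℝ) := Icc x1 x2 ×ˢ Icc y1 y2 with hK
  have hKc : IsCompact K := isCompact_Icc.prod isCompact_Icc
  have hKn : K.Nonempty := ⟨(x1, y1), ⟨⟨le_refl _, hx.le⟩, ⟨le_refl _, hy.le⟩⟩⟩
  have hcb : ∀ x ∈ Icc x1 x2, (x - c) ^ 2 ≤ (x2 - x1) ^ 2 / 4 := by
    intro x hx'
    have h1 := hx'.1
    have h2 := hx'.2
    have e : (x2 - x1) ^ 2 / 4 - (x - c) ^ 2 = (x - x1) * (x2 - x) := by rw [hc]; ring
    have : 0 ≤ (x - x1) * (x2 - x) := mul_nonneg (by linarith) (by linarith)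
    linarith
  -- Step 1
  have step1 : ∀ x ∈ Icc x1 x2, ∀ y ∈ Icc y1 y2, 0 ≤ u x y := by
    set P : ℝ := Q + 1 / (x2 - x1) ^ 2 with hP
    have hP0 : 0 < P := by positivity
    have hPw : P * (x2 - x1) ^ 2 ≤ 2 := by
      have : P * (x2 - x1) ^ 2 = Q * (x2 - x1) ^ 2 + 1 := by
        rw [hP]; field_simp
      linarith
    have hψ : ∀ x ∈ Icc x1 x2, 1 / 2 ≤ 1 - P * (x - c) ^ 2 := by
      intro x hx'
      have h1 := hcb x hx'
      have h2 : P * (x - c) ^ 2 ≤ P * ((x2 - x1) ^ 2 / 4) := mul_le_mul_of_nonneg_left h1 hP0.le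
      nlinarith
    have hcont : ContinuousOn (fun p : ℝ × ℝ => u p.1 p.2 / (1 - P * (p.1 - c) ^ 2)) K := by
      refine huc.continuousOn.div (by fun_prop) ?_
      intro p hp
      have := hψ p.1 hp.1
      linarith
    obtain ⟨p, hpK, hpm⟩ := hKc.exists_isMinOn hKn hcont
    set m : ℝ := u p.1 p.2 / (1 - P * (p.1 - c) ^ 2) with hm
    have hmin : ∀ x ∈ Icc x1 x2, ∀ y ∈ Icc y1 y2, m * (1 - P * (x - c) ^ 2) ≤ u x y := by
      intro x hx' y hy'
      have h1 : m ≤ u x y / (1 - P * (x - c) ^ 2) := hpm (show (x, y) ∈ K from ⟨hx', hy'⟩)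
      have h2 := hψ x hx'
      rwa [le_div_iff₀ (by linarith)] at h1
    by_contra hcon
    push Not at hcon
    obtain ⟨x, hx', y, hy', hneg⟩ := hcon
    have hm0 : m < 0 := by
      by_contra h
      push Not at h
      have h1 := hmin x hx' y hy'
      have h2 := hψ x hx'
      have : 0 ≤ m * (1 - P * (x - c) ^ 2) := mul_nonneg h (by linarith)
      linarith
    have hup : u p.1 p.2 = m * (1 - P * (p.1 - c) ^ 2) := by
      have h2 := hψ p.1 hpK.1
      rw [hm, div_mul_cancel₀]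
      linarith
    have hup0 : u p.1 p.2 < 0 := by
      rw [hup]
      have h2 := hψ p.1 hpK.1
      exact mul_neg_of_neg_of_pos hm0 (by linarith)
    have hint : ¬ (p.1 = x1 ∨ p.1 = x2 ∨ p.2 = y1 ∨ p.2 = y2) := fun h =>
      absurd (hb p.1 hpK.1 p.2 hpK.2 h) (by linarith)
    push Not at hint
    have hix : x1 < p.1 ∧ p.1 < x2 :=
      ⟨lt_of_le_of_ne hpK.1.1 (Ne.symm hint.1), lt_of_le_of_ne hpK.1.2 hint.2.1⟩
    have hiy : y1 < p.2 ∧ p.2 < y2 :=
      ⟨lt_of_le_of_ne hpK.2.1 (Ne.symm hint.2.2.1), lt_of_le_of_ne hpK.2.2 hint.2.2.2⟩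
    have key := interior_min (v := fun x y => u x y + (-m + (m * P) * (x - c) ^ 2)) (x1 := x1)
      (x2 := x2) (y1 := y1) (y2 := y2) (by fun_prop) hix hiy (by
        intro x hx'' y hy''
        have h1 := hmin x hx'' y hy''
        show u p.1 p.2 + (-m + (m * P) * (p.1 - c) ^ 2) ≤ u x y + (-m + (m * P) * (x - c) ^ 2)
        have e1 : u p.1 p.2 + (-m + (m * P) * (p.1 - c) ^ 2) = 0 := by rw [hup]; ring
        rw [e1]
        nlinarith)
    have k1 := key.1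
    have k2 := key.2
    rw [dd_add (hsx p.2)] at k1
    have e2 : (fun t => u p.1 t + (-m + (m * P) * (p.1 - c) ^ 2)) =
        fun t => u p.1 t + ((-m + (m * P) * (p.1 - c) ^ 2) + 0 * (t - 0) ^ 2) := by
      funext t; ring
    rw [e2, dd_add (hsy p.1)] at k2
    have h3 := hpde p.1 p.2
    have h4 := hψ p.1 hpK.1
    have h5 : q p.1 p.2 * (1 - P * (p.1 - c) ^ 2) ≤ P := by
      have h6 : 1 - P * (p.1 - c) ^ 2 ≤ 1 := by
        have : 0 ≤ P * (p.1 - c) ^ 2 := by positivity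
        linarith
      have h7 : q p.1 p.2 ≤ P := by
        have : 0 ≤ 1 / (x2 - x1) ^ 2 := by positivity
        have := hqQ p.1 p.2
        rw [hP]; linarith
      calc q p.1 p.2 * (1 - P * (p.1 - c) ^ 2) ≤ q p.1 p.2 * 1 :=
            mul_le_mul_of_nonneg_left h6 (hq0 _ _)
        _ ≤ P := by linarith
    rw [hup] at h3
    have h8 : q p.1 p.2 * (m * (1 - P * (p.1 - c) ^ 2)) = m * (q p.1 p.2 * (1 - P * (p.1 - c) ^ 2)) := by
      ring
    have h9 : m * P ≤ m * (q p.1 p.2 * (1 - P * (p.1 - c) ^ 2)) :=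
      mul_le_mul_of_nonpos_left h5 hm0.le
    have h10 : m * P < 0 := mul_neg_of_neg_of_pos hm0 hP0
    linarith
  -- Step 2
  set B : Set (ℝ × ℝ) := K ∩ {p | p.1 = x1 ∨ p.1 = x2 ∨ p.2 = y1 ∨ p.2 = y2} with hB
  have hBclosed : IsClosed {p : ℝ × ℝ | p.1 = x1 ∨ p.1 = x2 ∨ p.2 = y1 ∨ p.2 = y2} := by
    have h1 : IsClosed {p : ℝ × ℝ | p.1 = x1} := isClosed_eq continuous_fst continuous_const
    have h2 : IsClosed {p : ℝ × ℝ | p.1 = x2} := isClosed_eq continuous_fst continuous_const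
    have h3 : IsClosed {p : ℝ × ℝ | p.2 = y1} := isClosed_eq continuous_snd continuous_const
    have h4 : IsClosed {p : ℝ × ℝ | p.2 = y2} := isClosed_eq continuous_snd continuous_const
    exact h1.union (h2.union (h3.union h4))
  have hBc : IsCompact B := hKc.inter_right hBclosed
  have hBn : B.Nonempty := ⟨(x1, y1), ⟨⟨le_refl _, hx.le⟩, ⟨le_refl _, hy.le⟩⟩, Or.inl rfl⟩
  obtain ⟨p0, hp0B, hp0m⟩ := hBc.exists_isMinOn hBn huc.continuousOn
  set e0 : ℝ := u p0.1 p0.2 with he0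
  have he0pos : 0 < e0 := hb p0.1 hp0B.1.1 p0.2 hp0B.1.2 hp0B.2
  set η : ℝ := e0 / (x2 - x1) ^ 2 with hη
  have hηpos : 0 < η := by positivity
  have hηw : η * (x2 - x1) ^ 2 = e0 := by rw [hη]; field_simp
  by_contra hcon
  push Not at hcon
  obtain ⟨x, hx', y, hy', hneg⟩ := hcon
  have hcont : ContinuousOn (fun p : ℝ × ℝ => u p.1 p.2 + (0 + (-η) * (p.1 - c) ^ 2)) K := by
    have : Continuous (fun p : ℝ × ℝ => u p.1 p.2 + (0 + (-η) * (p.1 - c) ^ 2)) :=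
      huc.add (by fun_prop)
    exact this.continuousOn
  obtain ⟨p, hpK, hpm⟩ := hKc.exists_isMinOn hKn hcont
  have hmin : ∀ x ∈ Icc x1 x2, ∀ y ∈ Icc y1 y2,
      u p.1 p.2 + (0 + (-η) * (p.1 - c) ^ 2) ≤ u x y + (0 + (-η) * (x - c) ^ 2) :=
    fun x hx' y hy' => hpm (show (x, y) ∈ K from ⟨hx', hy'⟩)
  have hle : u p.1 p.2 + (0 + (-η) * (p.1 - c) ^ 2) ≤ 0 := by
    have h1 := hmin x hx' y hy'
    have : 0 ≤ η * (x - c) ^ 2 := by positivity
    linarith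
  have hint : ¬ (p.1 = x1 ∨ p.1 = x2 ∨ p.2 = y1 ∨ p.2 = y2) := by
    intro h
    have h1 : e0 ≤ u p.1 p.2 := hp0m (show p ∈ B from ⟨hpK, h⟩)
    have h2 := hcb p.1 hpK.1
    have h3 : η * (p.1 - c) ^ 2 ≤ η * ((x2 - x1) ^ 2 / 4) := mul_le_mul_of_nonneg_left h2 hηpos.le
    nlinarith
  push Not at hint
  have hix : x1 < p.1 ∧ p.1 < x2 :=
    ⟨lt_of_le_of_ne hpK.1.1 (Ne.symm hint.1), lt_of_le_of_ne hpK.1.2 hint.2.1⟩
  have hiy : y1 < p.2 ∧ p.2 < y2 :=
    ⟨lt_of_le_of_ne hpK.2.1 (Ne.symm hint.2.2.1), lt_of_le_of_ne hpK.2.2 hint.2.2.2⟩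
  have key := interior_min (v := fun x y => u x y + (0 + (-η) * (x - c) ^ 2)) (x1 := x1)
    (x2 := x2) (y1 := y1) (y2 := y2) (huc.add (by fun_prop)) hix hiy hmin
  have k1 := key.1
  have k2 := key.2
  rw [dd_add (hsx p.2)] at k1
  have e2 : (fun t => u p.1 t + (0 + (-η) * (p.1 - c) ^ 2)) =
      fun t => u p.1 t + ((0 + (-η) * (p.1 - c) ^ 2) + 0 * (t - 0) ^ 2) := by
    funext t; ring
  rw [e2, dd_add (hsy p.1)] at k2
  have h3 := hpde p.1 p.2
  have h4 : 0 ≤ q p.1 p.2 * u p.1 p.2 := mul_nonneg (hq0 _ _) (step1 _ hpK.1 _ hpK.2)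
  linarith

end MaxP

open MaxP in
theorem s_MAX : S_MAX := by
  intro u q Q x1 x2 y1 y2 hx hy hu hq0 hqQ hpde hQ hb
  have huc : Continuous fun p : ℝ × ℝ => u p.1 p.2 := hu.continuous
  -- the boundary is preconnected
  set B : Set (ℝ × ℝ) := (({x1} : Set ℝ) ×ˢ Icc y1 y2 ∪ Icc x1 x2 ×ˢ ({y1} : Set ℝ)) ∪
    (({x2} : Set ℝ) ×ˢ Icc y1 y2 ∪ Icc x1 x2 ×ˢ ({y2} : Set ℝ)) with hB
  have hBp : IsPreconnected B := by
    refine IsPreconnected.union (x2, y1) ?_ ?_ ?_ ?_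
    · exact Or.inr ⟨⟨hx.le, le_refl _⟩, rfl⟩
    · exact Or.inl ⟨rfl, ⟨le_refl _, hy.le⟩⟩
    · refine IsPreconnected.union (x1, y1) ⟨rfl, ⟨le_refl _, hy.le⟩⟩ ⟨⟨le_refl _, hx.le⟩, rfl⟩ ?_ ?_
      · exact isPreconnected_singleton.prod isPreconnected_Icc
      · exact isPreconnected_Icc.prod isPreconnected_singleton
    · refine IsPreconnected.union (x2, y2) ⟨rfl, ⟨hy.le, le_refl _⟩⟩ ⟨⟨hx.le, le_refl _⟩, rfl⟩ ?_ ?_
      · exact isPreconnected_singleton.prod isPreconnected_Icc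
      · exact isPreconnected_Icc.prod isPreconnected_singleton
  have hBmem : ∀ x ∈ Icc x1 x2, ∀ y ∈ Icc y1 y2, (x = x1 ∨ x = x2 ∨ y = y1 ∨ y = y2) →
      (x, y) ∈ B := by
    intro x hx' y hy' h
    rcases h with h | h | h | h
    · exact Or.inl (Or.inl ⟨h, hy'⟩)
    · exact Or.inr (Or.inl ⟨h, hy'⟩)
    · exact Or.inl (Or.inr ⟨hx', h⟩)
    · exact Or.inr (Or.inr ⟨hx', h⟩)
  have hBne : ∀ p ∈ B, u p.1 p.2 ≠ 0 := by
    rintro ⟨x, y⟩ hp
    rcases hp with (⟨h1, h2⟩ | ⟨h1, h2⟩) | (⟨h1, h2⟩ | ⟨h1, h2⟩)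
    · have h1' : x = x1 := h1
      exact hb x (by rw [h1']; exact ⟨le_refl _, hx.le⟩) y h2 (Or.inl h1')
    · have h2' : y = y1 := h2
      exact hb x h1 y (by rw [h2']; exact ⟨le_refl _, hy.le⟩) (Or.inr (Or.inr (Or.inl h2')))
    · have h1' : x = x2 := h1
      exact hb x (by rw [h1']; exact ⟨hx.le, le_refl _⟩) y h2 (Or.inr (Or.inl h1'))
    · have h2' : y = y2 := h2
      exact hb x h1 y (by rw [h2']; exact ⟨hy.le, le_refl _⟩) (Or.inr (Or.inr (Or.inr h2')))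
  have hiv : ∀ p ∈ B, ∀ p' ∈ B, 0 < u p.1 p.2 → 0 < u p'.1 p'.2 := by
    intro p hp p' hp' hpos
    by_contra hneg
    push Not at hneg
    have h := hBp.intermediate_value hp' hp huc.continuousOn
    obtain ⟨z, hz, hz0⟩ := h ⟨hneg, hpos.le⟩
    exact hBne z hz hz0
  have hc0 : (x1, y1) ∈ B := Or.inl (Or.inl ⟨rfl, ⟨le_refl _, hy.le⟩⟩)
  rcases lt_or_gt_of_ne (hBne _ hc0) with hneg | hpos
  · -- negative
    have hneg' : ∀ x ∈ Icc x1 x2, ∀ y ∈ Icc y1 y2, (x = x1 ∨ x = x2 ∨ y = y1 ∨ y = y2) →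
        0 < - u x y := by
      intro x hx' y hy' h
      have hm := hBmem x hx' y hy' h
      by_contra hcon
      push Not at hcon
      have h1 : 0 < u x y := lt_of_le_of_ne (by linarith) (Ne.symm (hBne _ hm))
      have h2 := hiv _ hm _ hc0 h1
      exact absurd h2 (by linarith)
    have := pos (u := fun x y => - u x y) (q := q) (Q := Q) hx hy hu.neg hq0 hqQ (by
      intro x y
      have h := hpde x y
      have e1 : deriv (deriv (fun t => - u t y)) x = - deriv (deriv (fun t => u t y)) x := by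
        have e : deriv (fun t => - u t y) = fun t => - deriv (fun t => u t y) t := by
          funext t; exact deriv.fun_neg
        rw [e]; exact deriv.fun_neg
      have e2 : deriv (deriv (fun t => - u x t)) y = - deriv (deriv (fun t => u x t)) y := by
        have e : deriv (fun t => - u x t) = fun t => - deriv (fun t => u x t) t := by
          funext t; exact deriv.fun_neg
        rw [e]; exact deriv.fun_neg
      rw [e1, e2]
      linarith) hQ hneg'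
    intro x hx' y hy' h0
    have := this x hx' y hy'
    rw [h0] at this
    simp at this
  · have hpos' : ∀ x ∈ Icc x1 x2, ∀ y ∈ Icc y1 y2, (x = x1 ∨ x = x2 ∨ y = y1 ∨ y = y2) →
        0 < u x y := fun x hx' y hy' h => hiv _ hc0 _ (hBmem x hx' y hy' h) hpos
    intro x hx' y hy'
    exact (pos hx hy hu hq0 hqQ hpde hQ hpos' x hx' y hy').ne'

end Pool.Agent.R267.NL
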