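import Pool.Agent.R267.NL.Defs

set_option autoImplicit false
open MeasureTheory Filter Topology
open scoped ContDiff

namespace Pool.Agent.R267.NL

/-- Second derivative of a finite sum. -/
lemma deriv2_sum (S : Finset ℝ) (R : ℝ → ℝ → ℝ) (h : ∀ μ ∈ S, ContDiff ℝ 2 (R μ)) (x : ℝ) :
    deriv (deriv (fun t => ∑ μ ∈ S, R μ t)) x = ∑ μ ∈ S, deriv (deriv (R μ)) x := by
  have h1 : deriv (fun t => ∑ μ ∈ S, R μ t) = fun t => ∑ μ ∈ S, deriv (R μ) t := by
    funext t
    exact deriv_fun_sum (fun μ hμ => ((h μ hμ).differentiable (by norm_num)) t)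
  rw [h1]
  refine deriv_fun_sum (fun μ hμ => ?_)
  have h2 : ContDiff ℝ 1 (deriv (R μ)) := by
    have h3 : ContDiff ℝ (1 + 1) (R μ) := by
      have := h μ hμ
      norm_num
      exact this
    exact ((contDiff_succ_iff_deriv).1 h3).2.2
  exact (h2.differentiable (by norm_num)) x

/-- (NL-NV) Solutions with different spectral parameters are independent on every interval. -/
theorem s_NV (h : S_UNIQ) : S_NV := by
  intro Q q S
  induction S using Finset.induction_on with
  | empty =>
    intro R _ _ _ _ c d _ _ μ hμ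
    simp at hμ
  | insert μ0 S' hμ0 ih =>
    intro R hq hR hode hQ c d hcd hsum
    -- the sum of `μ R μ` vanishes
    have hmul : ∀ x ∈ Set.Ioo c d, ∑ μ ∈ insert μ0 S', μ * R μ x = 0 := by
      intro x hx
      have hev : (fun t => ∑ μ ∈ insert μ0 S', R μ t) =ᶠ[𝓝 x] fun _ => (0 : ℝ) := by
        filter_upwards [Ioo_mem_nhds hx.1 hx.2] with t ht
        exact hsum t ht
      have h1 : deriv (fun t => ∑ μ ∈ insert μ0 S', R μ t) =ᶠ[𝓝 x] deriv (fun _ => (0 : ℝ)) :=
        hev.deriv
      have h2 := h1.deriv_eq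
      have h3 : deriv (deriv (fun _ : ℝ => (0 : ℝ))) x = 0 := by simp
      rw [h3, deriv2_sum _ _ hR] at h2
      have h4 : ∑ μ ∈ insert μ0 S', deriv (deriv (R μ)) x
          = ∑ μ ∈ insert μ0 S', μ * R μ x - q x * ∑ μ ∈ insert μ0 S', R μ x := by
        rw [Finset.mul_sum, ← Finset.sum_sub_distrib]
        refine Finset.sum_congr rfl (fun μ hμ => ?_)
        rw [hode μ hμ]
        ring
      rw [h4, hsum x hx] at h2
      linarith
    have hsub : ∀ x ∈ Set.Ioo c d, ∑ μ ∈ S', (μ - μ0) * R μ x = 0 := by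
      intro x hx
      have h1 := hmul x hx
      have h2 := hsum x hx
      rw [Finset.sum_insert hμ0] at h1 h2
      have h3 : ∑ μ ∈ S', (μ - μ0) * R μ x = ∑ μ ∈ S', μ * R μ x - μ0 * ∑ μ ∈ S', R μ x := by
        rw [Finset.mul_sum, ← Finset.sum_sub_distrib]
        refine Finset.sum_congr rfl (fun μ _ => ?_)
        ring
      rw [h3]
      linear_combination h1 - μ0 * h2
    have hS' : ∀ μ ∈ S', ∀ x, R μ x = 0 := by
      intro μ hμ x
      have h1 := ih (fun μ x => (μ - μ0) * R μ x) hq
        (fun ν hν => contDiff_const.mul (hR ν (Finset.mem_insert_of_mem hν)))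
        (fun ν hν y => by
          have h2 : ContDiff ℝ 2 (R ν) := hR ν (Finset.mem_insert_of_mem hν)
          have h3 : deriv (fun x => (ν - μ0) * R ν x) = fun x => (ν - μ0) * deriv (R ν) x := by
            funext t
            simp
          show deriv (deriv (fun x => (ν - μ0) * R ν x)) y = (ν - q y) * ((ν - μ0) * R ν y)
          rw [h3]
          have h4 : deriv (fun x => (ν - μ0) * deriv (R ν) x) y
              = (ν - μ0) * deriv (deriv (R ν)) y := by
            simp
          rw [h4, hode ν (Finset.mem_insert_of_mem hν)]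
          ring)
        (fun ν hν => hQ ν (Finset.mem_insert_of_mem hν)) c d hcd hsub μ hμ x
      have h2 : μ ≠ μ0 := fun h => hμ0 (h ▸ hμ)
      rcases mul_eq_zero.1 h1 with h3 | h3
      · exact absurd (sub_eq_zero.1 h3) h2
      · exact h3
    have h0 : ∀ x, R μ0 x = 0 := by
      have hz : ∀ x ∈ Set.Ioo c d, R μ0 x = 0 := by
        intro x hx
        have h2 := hsum x hx
        rw [Finset.sum_insert hμ0, Finset.sum_eq_zero (fun μ hμ => hS' μ hμ x), add_zero] at h2
        exact h2
      have hm : (c + d) / 2 ∈ Set.Ioo c d := ⟨by linarith, by linarith⟩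
      have hev : R μ0 =ᶠ[𝓝 ((c + d) / 2)] fun _ => (0 : ℝ) := by
        filter_upwards [Ioo_mem_nhds hm.1 hm.2] with t ht
        exact hz t ht
      refine h Q (R μ0) (hR μ0 (Finset.mem_insert_self _ _)) ?_ ((c + d) / 2) (hz _ hm) ?_
      · intro x
        rw [hode μ0 (Finset.mem_insert_self _ _), abs_mul]
        exact mul_le_mul_of_nonneg_right (hQ μ0 (Finset.mem_insert_self _ _) x) (abs_nonneg _)
      · rw [hev.deriv_eq]
        simp
    intro μ hμ x
    rcases Finset.mem_insert.1 hμ with h1 | h1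
    · rw [h1]; exact h0 x
    · exact hS' μ h1 x

end Pool.Agent.R267.NL
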