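import Pool.Agent.R267.NL.Defs

/-!
# NL-ROLLE: Sturm's principle for `f ↦ f'' - p f` (piece of project NL, MP_c7f82c_an)
-/

set_option autoImplicit false

namespace Pool.Agent.R267.NL

open Filter Topology Set

theorem rl_second_test (f : ℝ → ℝ) (x : ℝ) (hf : ContDiff ℝ 2 f) (hmax : IsLocalMax f x) :
    deriv (deriv f) x ≤ 0 := by
  by_contra h
  push Not at h
  have h1 : deriv f x = 0 := hmax.deriv_eq_zero
  have hmin := isLocalMin_of_deriv_deriv_pos h h1 hf.continuous.continuousAt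
  have h2 : f =ᶠ[𝓝 x] fun _ => f x := by
    filter_upwards [hmax, hmin] with y h1 h2
    exact le_antisymm h1 h2
  have h3 := h2.deriv
  have h4 := h3.deriv_eq
  rw [h4] at h
  simp at h

/-- equivariant choice -/
theorem rl_choice (a : ℝ) (N : ℕ) (hN : 0 < N) (P : ℤ → ℝ → Prop) (h1 : ∀ i, ∃ x, P i x)
    (h2 : ∀ i x, P i x ↔ P (i + N) (x + a)) :
    ∃ s : ℤ → ℝ, (∀ i, P i (s i)) ∧ ∀ i, s (i + N) = s i + a := by
  have hk : ∀ k : ℤ, ∀ i x, P i x ↔ P (i + k * N) (x + k * a) := by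
    intro k
    induction k using Int.induction_on with
    | zero => intro i x; simp
    | succ k ih =>
      intro i x
      rw [ih i x, h2]
      have e1 : i + (k : ℤ) * N + N = i + ((k : ℤ) + 1) * N := by ring
      have e2 : x + ((k : ℤ) : ℝ) * a + a = x + (((k : ℤ) + 1 : ℤ) : ℝ) * a := by
        push_cast; ring
      rw [e1, e2]
    | pred k ih =>
      intro i x
      rw [ih i x, h2 (i + (-(k : ℤ) - 1) * N) (x + ((-(k : ℤ) - 1 : ℤ) : ℝ) * a)]
      have e1 : i + (-(k : ℤ) - 1) * N + N = i + (-(k : ℤ)) * N := by ring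
      have e2 : x + ((-(k : ℤ) - 1 : ℤ) : ℝ) * a + a = x + ((-(k : ℤ) : ℤ) : ℝ) * a := by
        push_cast; ring
      rw [e1, e2]
  have hN' : (N : ℤ) ≠ 0 := by exact_mod_cast hN.ne'
  choose c hc using h1
  refine ⟨fun i => c (i % N) + ((i / N : ℤ) : ℝ) * a, fun i => ?_, fun i => ?_⟩
  · have h3 := (hk (i / N) (i % N) (c (i % N))).1 (hc _)
    have e : i % (N : ℤ) + i / N * N = i := by
      rw [mul_comm]; exact Int.emod_add_mul_ediv i N
    rw [e] at h3
    exact h3
  · have e1 : (i + (N : ℤ)) % N = i % N := by simp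
    have e2 : (i + (N : ℤ)) / N = i / N + 1 := by
      have := Int.add_mul_ediv_right i 1 hN'
      rw [one_mul] at this
      exact this
    simp only [e1, e2]
    push_cast
    ring

theorem rl_neg2 (f : ℝ → ℝ) (x : ℝ) : deriv (deriv (fun y => - f y)) x = - deriv (deriv f) x := by
  have h1 : deriv (fun y => - f y) = fun y => - deriv f y := by
    funext y; simp
  rw [h1]; simp

theorem rl_max (f p : ℝ → ℝ) (hf : ContDiff ℝ 2 f) (hp : ∀ x, 0 < p x) (u v x : ℝ)
    (hx : x ∈ Ioo u v) (hmax : ∀ y ∈ Icc u v, |f y| ≤ |f x|) (hpos : 0 < f x) :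
    deriv (deriv f) x - p x * f x < 0 := by
  have h1 : IsLocalMax f x := by
    filter_upwards [Ioo_mem_nhds hx.1 hx.2] with y hy
    have h2 := hmax y ⟨hy.1.le, hy.2.le⟩
    rw [abs_of_pos hpos] at h2
    exact (le_abs_self _).trans h2
  have h2 := rl_second_test f x hf h1
  have h3 := mul_pos (hp x) hpos
  linarith

theorem rl_zero_pos (f p : ℝ → ℝ) (hf : ContDiff ℝ 2 f) (hp : ∀ x, 0 < p x)
    (hF : Continuous fun x => deriv (deriv f) x - p x * f x) (x1 m x2 : ℝ) (h1 : x1 < m)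
    (h2 : m < x2) (hm : f m = 0) (hf1 : 0 < f x1) (hf2 : 0 < f x2)
    (hF1 : deriv (deriv f) x1 - p x1 * f x1 < 0) :
    ∃ z ∈ Ioo x1 x2, deriv (deriv f) z - p z * f z = 0 := by
  obtain ⟨η, hη, hmin⟩ := isCompact_Icc.exists_isMinOn (s := Icc x1 x2)
    ⟨m, h1.le, h2.le⟩ hf.continuous.continuousOn
  have h3 : f η ≤ 0 := by
    have := hmin (show m ∈ Icc x1 x2 from ⟨h1.le, h2.le⟩)
    simpa [hm] using this
  have h4 : x1 < η := by
    rcases lt_or_eq_of_le hη.1 with h | h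
    · exact h
    · rw [← h] at h3; linarith
  have h5 : η < x2 := by
    rcases lt_or_eq_of_le hη.2 with h | h
    · exact h
    · rw [h] at h3; linarith
  have h6 : IsLocalMax (fun y => - f y) η := by
    filter_upwards [Ioo_mem_nhds h4 h5] with y hy
    have := hmin (show y ∈ Icc x1 x2 from ⟨hy.1.le, hy.2.le⟩)
    have h7 : f η ≤ f y := this
    show - f y ≤ - f η
    linarith
  have h7 := rl_second_test (fun y => - f y) η hf.neg h6
  rw [rl_neg2] at h7
  have h8 : 0 ≤ deriv (deriv f) η - p η * f η := by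
    have := mul_nonneg (hp η).le (neg_nonneg.2 h3)
    nlinarith
  have h9 := intermediate_value_Icc h4.le hF.continuousOn
  obtain ⟨z, hz, hz0⟩ := h9 (show (0 : ℝ) ∈ Icc _ _ from ⟨hF1.le, h8⟩)
  refine ⟨z, ⟨?_, lt_of_le_of_lt hz.2 h5⟩, hz0⟩
  rcases lt_or_eq_of_le hz.1 with h | h
  · exact h
  · rw [← h] at hz0
    simp only at hz0
    linarith

theorem rl_zero (f p : ℝ → ℝ) (hf : ContDiff ℝ 2 f) (hp : ∀ x, 0 < p x)
    (hF : Continuous fun x => deriv (deriv f) x - p x * f x) (x1 m x2 : ℝ) (h1 : x1 < m)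
    (h2 : m < x2) (hm : f m = 0) (hf1 : f x1 ≠ 0) (hf2 : f x2 ≠ 0)
    (hA1 : 0 < f x1 → deriv (deriv f) x1 - p x1 * f x1 < 0)
    (hB1 : f x1 < 0 → 0 < deriv (deriv f) x1 - p x1 * f x1)
    (hA2 : 0 < f x2 → deriv (deriv f) x2 - p x2 * f x2 < 0)
    (hB2 : f x2 < 0 → 0 < deriv (deriv f) x2 - p x2 * f x2) :
    ∃ z ∈ Ioo x1 x2, deriv (deriv f) z - p z * f z = 0 := by
  have h12 : x1 < x2 := h1.trans h2
  rcases lt_or_gt_of_ne hf1 with n1 | p1
  · rcases lt_or_gt_of_ne hf2 with n2 | p2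
    · have hF' : Continuous fun x => deriv (deriv (fun y => - f y)) x - p x * (- f x) := by
        have : (fun x => deriv (deriv (fun y => - f y)) x - p x * (- f x)) =
            fun x => - (deriv (deriv f) x - p x * f x) := by
          funext x; rw [rl_neg2]; ring
        rw [this]; exact hF.neg
      obtain ⟨z, hz, hz0⟩ := rl_zero_pos (fun y => - f y) p hf.neg hp hF' x1 m x2 h1 h2
        (by simp [hm]) (by linarith) (by linarith)
        (by rw [rl_neg2]; have := hB1 n1; nlinarith)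
      refine ⟨z, hz, ?_⟩
      rw [rl_neg2] at hz0
      linarith
    · have hIV := intermediate_value_Ioo' h12.le hF.continuousOn
      obtain ⟨z, hz, hz0⟩ := hIV (show (0 : ℝ) ∈ Ioo _ _ from ⟨hA2 p2, hB1 n1⟩)
      exact ⟨z, hz, hz0⟩
  · rcases lt_or_gt_of_ne hf2 with n2 | p2
    · have hIV := intermediate_value_Ioo h12.le hF.continuousOn
      obtain ⟨z, hz, hz0⟩ := hIV (show (0 : ℝ) ∈ Ioo _ _ from ⟨hA1 p1, hB2 n2⟩)
      exact ⟨z, hz, hz0⟩
    · exact rl_zero_pos f p hf hp hF x1 m x2 h1 h2 hm p1 p2 (hA1 p1)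

/-- Sturm's principle for the operator `f ↦ f'' - p f`, `p > 0`. -/
theorem s_ROLLE : S_ROLLE := by
  intro a N f p ha hN hf hpc hp hfa hpa hne hZ
  obtain ⟨g, hg, hga, hg0⟩ := hZ
  have hd1 : ∀ x, deriv f (x + a) = deriv f x := by
    intro x
    rw [← deriv_comp_add_const f a x]
    congr 1
    funext y; exact hfa y
  have hd2 : ∀ x, deriv (deriv f) (x + a) = deriv (deriv f) x := by
    intro x
    rw [← deriv_comp_add_const (deriv f) a x]
    congr 1
    funext y; exact hd1 y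
  have hcd : Continuous (deriv (deriv f)) := by
    have h : ContDiff ℝ (1 + 1) f := by
      have : (1 + 1 : WithTop ℕ∞) = 2 := by norm_num
      rw [this]; exact hf
    have h1 := (contDiff_succ_iff_deriv.1 h).2.2
    exact h1.continuous_deriv (by norm_num)
  have hF : Continuous fun x => deriv (deriv f) x - p x * f x :=
    hcd.sub (hpc.mul hf.continuous)
  -- the maximum points
  obtain ⟨ξ, hξ, hξa⟩ := rl_choice a N hN
    (fun i x => (g i < x ∧ x < g (i + 1)) ∧ f x ≠ 0 ∧ ∀ y ∈ Icc (g i) (g (i + 1)), |f y| ≤ |f x|)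
    (by
      intro i
      have hlt : g i < g (i + 1) := hg (by omega)
      obtain ⟨x, hx, hmax⟩ := isCompact_Icc.exists_isMaxOn (s := Icc (g i) (g (i + 1)))
        ⟨g i, le_refl _, hlt.le⟩ hf.continuous.abs.continuousOn
      have hmax' : ∀ y ∈ Icc (g i) (g (i + 1)), |f y| ≤ |f x| := fun y hy => hmax hy
      obtain ⟨w, hw, hw0⟩ := hne _ _ hlt
      have h1 : 0 < |f x| := lt_of_lt_of_le (abs_pos.2 hw0) (hmax' w ⟨hw.1.le, hw.2.le⟩)
      have h2 : f x ≠ 0 := abs_pos.1 h1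
      refine ⟨x, ⟨?_, ?_⟩, h2, hmax'⟩
      · rcases lt_or_eq_of_le hx.1 with h | h
        · exact h
        · exact absurd (by rw [← h]; exact hg0 i) h2
      · rcases lt_or_eq_of_le hx.2 with h | h
        · exact h
        · exact absurd (by rw [h]; exact hg0 (i + 1)) h2)
    (by
      intro i x
      have e : g (i + N + 1) = g (i + 1) + a := by
        rw [← hga (i + 1)]; congr 1; ring
      simp only [hga i, e, hfa]
      constructor
      · rintro ⟨⟨h1, h2⟩, h3, h4⟩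
        refine ⟨⟨by linarith, by linarith⟩, h3, fun y hy => ?_⟩
        have := h4 (y - a) ⟨by linarith [hy.1], by linarith [hy.2]⟩
        have e2 : f (y - a) = f y := by
          have := hfa (y - a); rw [sub_add_cancel] at this; exact this.symm
        rwa [e2] at this
      · rintro ⟨⟨h1, h2⟩, h3, h4⟩
        refine ⟨⟨by linarith, by linarith⟩, h3, fun y hy => ?_⟩
        have := h4 (y + a) ⟨by linarith [hy.1], by linarith [hy.2]⟩
        rwa [hfa] at this)
  have hA : ∀ i, 0 < f (ξ i) → deriv (deriv f) (ξ i) - p (ξ i) * f (ξ i) < 0 := fun i h =>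
    rl_max f p hf hp (g i) (g (i + 1)) (ξ i) (hξ i).1 (hξ i).2.2 h
  have hB : ∀ i, f (ξ i) < 0 → 0 < deriv (deriv f) (ξ i) - p (ξ i) * f (ξ i) := by
    intro i h
    have h1 := rl_max (fun y => - f y) p hf.neg hp (g i) (g (i + 1)) (ξ i) (hξ i).1
      (by intro y hy; simpa using (hξ i).2.2 y hy) (by linarith)
    rw [rl_neg2] at h1
    linarith
  obtain ⟨ζ, hζ, hζa⟩ := rl_choice a N hN
    (fun i z => (ξ i < z ∧ z < ξ (i + 1)) ∧ deriv (deriv f) z - p z * f z = 0)
    (by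
      intro i
      obtain ⟨z, hz, hz0⟩ := rl_zero f p hf hp hF (ξ i) (g (i + 1)) (ξ (i + 1)) (hξ i).1.2
        (hξ (i + 1)).1.1 (hg0 _) (hξ i).2.1 (hξ (i + 1)).2.1 (hA i) (hB i) (hA _) (hB _)
      exact ⟨z, hz, hz0⟩)
    (by
      intro i z
      have e : ξ (i + N + 1) = ξ (i + 1) + a := by
        rw [← hξa (i + 1)]; congr 1; ring
      simp only [hξa i, e, hfa, hpa, hd2]
      constructor
      · rintro ⟨⟨h1, h2⟩, h3⟩
        exact ⟨⟨by linarith, by linarith⟩, h3⟩
      · rintro ⟨⟨h1, h2⟩, h3⟩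
        exact ⟨⟨by linarith, by linarith⟩, h3⟩)
  exact ⟨ζ, strictMono_int_of_lt_succ fun i => (hζ i).1.2.trans (hζ (i + 1)).1.1, hζa,
    fun i => (hζ i).2⟩

end Pool.Agent.R267.NL
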