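import Pool.Agent.R267.NL.Defs

/-!
# Piece NL-SYM (helper310): the separated operator is symmetric
-/

set_option autoImplicit false

open MeasureTheory
open scoped ContDiff

namespace Pool.Agent.R267.NL.Sym

/-- first partial derivative -/
noncomputable def D1 (G : ℝ × ℝ → ℝ) (p : ℝ × ℝ) : ℝ := fderiv ℝ G p (1, 0)

theorem hasDerivAt_D1 {G : ℝ × ℝ → ℝ} (hG : ContDiff ℝ ∞ G) (x y : ℝ) :
    HasDerivAt (fun t => G (t, y)) (D1 G (x, y)) x := by
  have h1 := ((hG.differentiable (by simp)) (x, y)).hasFDerivAt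
  have h2 : HasDerivAt (fun t : ℝ => (t, y)) ((1 : ℝ), (0 : ℝ)) x :=
    (hasDerivAt_id x).prodMk (hasDerivAt_const x y)
  exact h1.comp_hasDerivAt x h2

theorem contDiff_D1 {G : ℝ × ℝ → ℝ} (hG : ContDiff ℝ ∞ G) :
    ContDiff ℝ ∞ (D1 G) := by
  unfold D1
  exact (hG.fderiv_right (m := ∞) (by simp)).clm_apply contDiff_const

theorem dxx_eq {G : ℝ × ℝ → ℝ} (hG : ContDiff ℝ ∞ G) (p : ℝ × ℝ) :
    dxx G p = D1 (D1 G) p := by
  unfold dxx
  have h1 : deriv (fun t => G (t, p.2)) = fun t => D1 G (t, p.2) := by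
    funext t
    exact (hasDerivAt_D1 hG t p.2).deriv
  rw [h1]
  exact (hasDerivAt_D1 (contDiff_D1 hG) p.1 p.2).deriv

theorem D1_per {G : ℝ × ℝ → ℝ} (hG : ContDiff ℝ ∞ G) {a : ℝ}
    (hp : ∀ x y, G (x + a, y) = G (x, y)) (x y : ℝ) : D1 G (x + a, y) = D1 G (x, y) := by
  have h1 : HasDerivAt (fun t => G (t + a, y)) (D1 G (x + a, y)) x := by
    have := (hasDerivAt_D1 hG (x + a) y).comp_add_const x a
    exact this
  have h2 : (fun t => G (t + a, y)) = fun t => G (t, y) := by
    funext t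
    exact hp t y
  rw [h2] at h1
  exact h1.unique (hasDerivAt_D1 hG x y)

end Pool.Agent.R267.NL.Sym

namespace Pool.Agent.R267.NL

open Sym

/-- Piece NL-SYM. -/
theorem s_SYM : S_SYM := by
  intro f g a b lam φ ψ hf hφ hψ
  have hfc : Continuous f := hf.continuous
  have hφc : Continuous φ := hφ.smooth.continuous
  have hψc : Continuous ψ := hψ.smooth.continuous
  have hdφ : Continuous (dxx φ) := by
    have : dxx φ = D1 (D1 φ) := funext (dxx_eq hφ.smooth)
    rw [this]
    exact (contDiff_D1 (contDiff_D1 hφ.smooth)).continuous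
  have hdψ : Continuous (dxx ψ) := by
    have : dxx ψ = D1 (D1 ψ) := funext (dxx_eq hψ.smooth)
    rw [this]
    exact (contDiff_D1 (contDiff_D1 hψ.smooth)).continuous
  set F1 : ℝ → ℝ → ℝ := fun x y => (dxx φ (x, y) + lam * f x * φ (x, y)) * ψ (x, y) with hF1
  set F2 : ℝ → ℝ → ℝ := fun x y => φ (x, y) * (dxx ψ (x, y) + lam * f x * ψ (x, y)) with hF2
  have hF1c : Continuous (Function.uncurry F1) := by
    have e : Function.uncurry F1 = fun p : ℝ × ℝ => (dxx φ p + lam * f p.1 * φ p) * ψ p := by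
      funext p; rfl
    rw [e]
    fun_prop
  have hF2c : Continuous (Function.uncurry F2) := by
    have e : Function.uncurry F2 = fun p : ℝ × ℝ => φ p * (dxx ψ p + lam * f p.1 * ψ p) := by
      funext p; rfl
    rw [e]
    fun_prop
  have hint : ∀ F : ℝ → ℝ → ℝ, Continuous (Function.uncurry F) →
      IntegrableOn (Function.uncurry F) (Set.uIoc 0 a ×ˢ Set.uIoc 0 b) := by
    intro F hF
    have hK : IsCompact (Set.uIcc (0 : ℝ) a ×ˢ Set.uIcc (0 : ℝ) b) :=
      isCompact_uIcc.prod isCompact_uIcc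
    exact (hF.continuousOn.integrableOn_compact hK).mono_set
      (Set.prod_mono Set.uIoc_subset_uIcc Set.uIoc_subset_uIcc)
  rw [intervalIntegral_intervalIntegral_swap (hint F1 hF1c),
    intervalIntegral_intervalIntegral_swap (hint F2 hF2c)]
  refine intervalIntegral.integral_congr fun y _ => ?_
  show ∫ x in (0 : ℝ)..a, F1 x y = ∫ x in (0 : ℝ)..a, F2 x y
  have c1 : Continuous fun x => F1 x y :=
    hF1c.comp (continuous_id.prodMk continuous_const)
  have c2 : Continuous fun x => F2 x y :=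
    hF2c.comp (continuous_id.prodMk continuous_const)
  have key : ∫ x in (0 : ℝ)..a, (F1 x y - F2 x y) = 0 := by
    have hder : ∀ x ∈ Set.uIcc (0 : ℝ) a,
        HasDerivAt (fun t => D1 φ (t, y) * ψ (t, y) - φ (t, y) * D1 ψ (t, y))
          (F1 x y - F2 x y) x := by
      intro x _
      have a1 := hasDerivAt_D1 (contDiff_D1 hφ.smooth) x y
      have a2 := hasDerivAt_D1 hψ.smooth x y
      have a3 := hasDerivAt_D1 hφ.smooth x y
      have a4 := hasDerivAt_D1 (contDiff_D1 hψ.smooth) x y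
      have := (a1.mul a2).sub (a3.mul a4)
      refine this.congr_deriv ?_
      simp only [hF1, hF2, dxx_eq hφ.smooth, dxx_eq hψ.smooth]
      ring
    rw [intervalIntegral.integral_eq_sub_of_hasDerivAt hder ((c1.sub c2).intervalIntegrable _ _)]
    have p1 := D1_per hφ.smooth hφ.perx 0 y
    have p2 := D1_per hψ.smooth hψ.perx 0 y
    have p3 := hφ.perx 0 y
    have p4 := hψ.perx 0 y
    rw [zero_add] at p1 p2 p3 p4
    simp only [p1, p2, p3, p4]
    ring
  rw [intervalIntegral.integral_sub (c1.intervalIntegrable _ _) (c2.intervalIntegrable _ _)] at key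
  linarith

end Pool.Agent.R267.NL
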