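import Pool.Agent.R267.NL.Uniq
import Pool.Agent.R267.NL.Nv
import Pool.Agent.R267.NL.Rolle
import Pool.Agent.R267.NL.Count
import Pool.Agent.R267.NL.Fin
import Pool.Agent.R267.NL.Max
import Pool.Agent.R267.NL.Cover
import Pool.Agent.R267.NL.Inv
import Pool.Agent.R267.NL.Sym
import Pool.Agent.R267.NL.Dim
import Pool.Agent.R267.NL.Dec

set_option autoImplicit false
open MeasureTheory
open scoped ContDiff

namespace Pool.Agent.R267.NL

theorem second_test_max {f : ℝ → ℝ} {x : ℝ} (hf : ContDiff ℝ 2 f) (hmax : ∀ y, f y ≤ f x) :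
    deriv (deriv f) x ≤ 0 :=
  Pool.Agent.R267.DI.Grad.second_test f x hf (Filter.Eventually.of_forall hmax)

/-- The separation parameters of a nonzero smooth solution. -/
theorem mu_bound {f g : ℝ → ℝ} {a b lam F G μ : ℝ} (ha : 0 < a) (hb : 0 < b) (hlam : 0 < lam)
    (hF : ∀ x, |f x| ≤ F) (hG : ∀ y, |g y| ≤ G) {R : ℝ × ℝ → ℝ} (h : Sol f g a b lam R)
    (he : ∀ p, dxx R p + lam * f p.1 * R p = μ * R p) (hne : ∃ p, R p ≠ 0) :
    |μ| ≤ lam * (F + G) := by
  have hF0 : 0 ≤ F := (abs_nonneg _).trans (hF 0)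
  have hG0 : 0 ≤ G := (abs_nonneg _).trans (hG 0)
  -- a sign making the maximum positive
  have key : ∀ P : ℝ × ℝ → ℝ, Sol f g a b lam P → (∀ p, dxx P p + lam * f p.1 * P p = μ * P p) →
      (∃ p, 0 < P p) → |μ| ≤ lam * (F + G) := by
    intro P hP hPe ⟨p0, hp0⟩
    have hc : Continuous P := hP.smooth.continuous
    have hex : ∃ p, ∀ q, P q ≤ P p := by
      have hcomp : IsCompact (Set.Icc (0 : ℝ) a ×ˢ Set.Icc (0 : ℝ) b) :=
        isCompact_Icc.prod isCompact_Icc
      obtain ⟨p, -, hp⟩ := hcomp.exists_isMaxOn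
        ⟨((0 : ℝ), (0 : ℝ)), ⟨⟨le_rfl, ha.le⟩, ⟨le_rfl, hb.le⟩⟩⟩ hc.continuousOn
      refine ⟨p, fun q => ?_⟩
      have h1 : Function.Periodic (fun x => P (x, q.2)) a := fun x => hP.perx x q.2
      obtain ⟨x, hx, hx2⟩ := h1.exists_mem_Ico₀ ha q.1
      have h2 : Function.Periodic (fun y => P (x, y)) b := fun y => hP.pery x y
      obtain ⟨y, hy, hy2⟩ := h2.exists_mem_Ico₀ hb q.2
      have h3 : P q = P (x, y) := by
        rw [← hy2]
        exact hx2
      rw [h3]
      exact hp ⟨⟨hx.1, hx.2.le⟩, ⟨hy.1, hy.2.le⟩⟩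
    obtain ⟨p, hp⟩ := hex
    have hpos : 0 < P p := hp0.trans_le (hp p0)
    have hs : ContDiff ℝ 2 P := DimAux.smooth2 hP.smooth
    have hsx : ContDiff ℝ 2 (fun t => P (t, p.2)) := hs.comp (contDiff_id.prodMk contDiff_const)
    have hsy : ContDiff ℝ 2 (fun t => P (p.1, t)) := hs.comp (contDiff_const.prodMk contDiff_id)
    have hxx : dxx P p ≤ 0 := second_test_max hsx (fun t => hp (t, p.2))
    have hyy : dyy P p ≤ 0 := second_test_max hsy (fun t => hp (p.1, t))
    have e1 := hPe p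
    have e2 := hP.pde p
    have hfx := abs_le.1 (hF p.1)
    have hgy := abs_le.1 (hG p.2)
    have u1 : μ * P p ≤ lam * f p.1 * P p := by linarith
    have u2 : -(lam * g p.2 * P p) ≤ μ * P p := by nlinarith
    have v1 : μ ≤ lam * f p.1 := le_of_mul_le_mul_right u1 hpos
    have v2 : -(lam * g p.2) ≤ μ := by
      have : -(lam * g p.2) * P p ≤ μ * P p := by linarith
      exact le_of_mul_le_mul_right this hpos
    rw [abs_le]
    constructor
    · have : lam * g p.2 ≤ lam * G := by gcongr; exact hgy.2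
      nlinarith
    · have : lam * f p.1 ≤ lam * F := by gcongr; exact hfx.2
      nlinarith
  obtain ⟨p0, hp0⟩ := hne
  rcases lt_or_gt_of_ne hp0 with hneg | hpos
  · have hm := SolAux.sol_smul (-1) h
    refine key _ hm ?_ ⟨p0, by nlinarith⟩
    intro p
    rw [SolAux.dxx_smul]
    have := he p
    linear_combination -this
  · exact key R h he ⟨p0, hpos⟩

/-- Sturm's bound on horizontal lines. -/
theorem zeros_x {f g : ℝ → ℝ} {a b lam F G : ℝ} (ha : 0 < a) (hb : 0 < b) (hlam : 0 < lam)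
    (hf : ContDiff ℝ ∞ f) (hg : ContDiff ℝ ∞ g) (hfa : ∀ x, f (x + a) = f x)
    (hgb : ∀ y, g (y + b) = g y) (hF : ∀ x, |f x| ≤ F) (hG : ∀ y, |g y| ≤ G) (hFG : 0 < F + G)
    {φ : ℝ × ℝ → ℝ} (h : Sol f g a b lam φ) (y : ℝ) (hy : ∃ x, φ (x, y) ≠ 0) (c : ℝ) :
    {x | x ∈ Set.Ico c (c + a) ∧ φ (x, y) = 0}.Finite ∧
      (Set.ncard {x | x ∈ Set.Ico c (c + a) ∧ φ (x, y) = 0} : ℝ)
        ≤ 2 * a * Real.sqrt (2 * lam * (F + G)) := by
  classical
  have hF0 : 0 ≤ F := (abs_nonneg _).trans (hF 0)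
  have hG0 : 0 ≤ G := (abs_nonneg _).trans (hG 0)
  obtain ⟨S, R, hR, hRe, hsum⟩ := s_DEC s_INV s_SYM s_DIM f g a b lam φ ha hb hlam hf hg hfa hgb h
  set S' := S.filter (fun μ => ∃ p, R μ p ≠ 0) with hS'
  have hsum' : ∀ p, φ p = ∑ μ ∈ S', R μ p := by
    intro p
    rw [hsum p, hS', Finset.sum_filter]
    refine Finset.sum_congr rfl fun μ _ => ?_
    split_ifs with hμ
    · rfl
    · push Not at hμ
      exact hμ p
  have hQ : 0 < 2 * lam * (F + G) := by positivity
  have hmem : ∀ μ ∈ S', μ ∈ S := fun μ hμ => (Finset.mem_filter.1 hμ).1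
  have hsm : ∀ μ ∈ S', ContDiff ℝ 2 (fun x => R μ (x, y)) := by
    intro μ hμ
    have h1 : ContDiff ℝ 2 (R μ) := DimAux.smooth2 (hR μ (hmem μ hμ)).smooth
    exact h1.comp (contDiff_id.prodMk contDiff_const)
  have hcount := s_COUNT s_UNIQ (s_NV s_UNIQ) s_ROLLE a (2 * lam * (F + G)) (fun x => lam * f x) S'
    (fun μ x => R μ (x, y)) ha hQ (continuous_const.mul hf.continuous)
    (fun x => by rw [hfa]) hsm (fun μ hμ x => (hR μ (hmem μ hμ)).perx x y)
    (fun μ hμ x => by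
      have := hRe μ (hmem μ hμ) (x, y)
      change dxx (R μ) (x, y) = _
      simp only at this
      linarith)
    (fun μ hμ x => by
      have h1 := mu_bound ha hb hlam hF hG (hR μ (hmem μ hμ)) (hRe μ (hmem μ hμ))
        (Finset.mem_filter.1 hμ).2
      have h2 : |lam * f x| ≤ lam * F := by
        rw [abs_mul, abs_of_pos hlam]
        gcongr
        exact hF x
      calc |μ - lam * f x| ≤ |μ| + |lam * f x| := abs_sub _ _
        _ ≤ lam * (F + G) + lam * F := add_le_add h1 h2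
        _ ≤ 2 * lam * (F + G) := by nlinarith)
    (by
      obtain ⟨x, hx⟩ := hy
      exact ⟨x, by rw [← hsum']; exact hx⟩)
  have hfin := s_FIN a (2 * a * Real.sqrt (2 * lam * (F + G))) (fun x => φ (x, y)) ha
    (fun x => h.perx x y) (fun N hN hZ => hcount N hN (by
      obtain ⟨g, g1, g2, g3⟩ := hZ
      exact ⟨g, g1, g2, fun i => by
        have := g3 i
        simp only at this
        rw [hsum'] at this
        exact this⟩)) (by positivity) c
  exact hfin

theorem sol_swap {f g : ℝ → ℝ} {a b lam : ℝ} {φ : ℝ × ℝ → ℝ} (h : Sol f g a b lam φ) :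
    Sol g f b a lam (fun p => φ (p.2, p.1)) where
  smooth := h.smooth.comp (contDiff_snd.prodMk contDiff_fst)
  perx := fun x y => h.pery y x
  pery := fun x y => h.perx y x
  pde := by
    intro p
    have := h.pde (p.2, p.1)
    have e1 : dxx (fun p => φ (p.2, p.1)) p = dyy φ (p.2, p.1) := rfl
    have e2 : dyy (fun p => φ (p.2, p.1)) p = dxx φ (p.2, p.1) := rfl
    rw [e1, e2]
    simp only at this
    linarith

/-- Yau's upper bound with the flat length. -/
theorem flat_length {f g : ℝ → ℝ} {a b lam F G : ℝ} (ha : 0 < a) (hb : 0 < b) (hlam : 0 < lam)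
    (hf : ContDiff ℝ ∞ f) (hg : ContDiff ℝ ∞ g) (hfa : ∀ x, f (x + a) = f x)
    (hgb : ∀ y, g (y + b) = g y) (hF : ∀ x, |f x| ≤ F) (hG : ∀ y, |g y| ≤ G) (hFG : 0 < F + G)
    (hpos : ∀ x y, 0 < f x + g y) {φ : ℝ → ℝ → ℝ} (h : Sol f g a b lam (fun p => φ p.1 p.2))
    (hne : ∃ x y, φ x y ≠ 0) :
    μH[1] {p : EuclideanSpace ℝ (Fin 2) | p 0 ∈ Set.Icc 0 a ∧ p 1 ∈ Set.Icc 0 b ∧
      φ (p 0) (p 1) = 0} ≤ ENNReal.ofReal (200 * (a + b) ^ 2 * Real.sqrt (2 * lam * (F + G))) := by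
  have h1 := s_COVER s_MAX φ (fun x y => lam * (f x + g y)) a b (lam * (F + G))
    (2 * (a + b) * Real.sqrt (2 * lam * (F + G))) ha hb (by positivity)
    (DimAux.smooth2 h.smooth)
    (fun x y => by have := hpos x y; positivity)
    (fun x y => by
      have := (abs_le.1 (hF x)).2
      have := (abs_le.1 (hG y)).2
      gcongr)
    (fun x y => h.pde (x, y)) (fun x y => h.perx x y) (fun x y => h.pery x y) hne
    (fun y hy c => by
      obtain ⟨z1, z2⟩ := zeros_x ha hb hlam hf hg hfa hgb hF hG hFG h y hy c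
      refine ⟨z1, z2.trans ?_⟩
      have : 0 ≤ Real.sqrt (2 * lam * (F + G)) := Real.sqrt_nonneg _
      nlinarith)
    (fun x hx c => by
      obtain ⟨z1, z2⟩ := zeros_x hb ha hlam hg hf hgb hfa hG hF (by linarith) (sol_swap h) x hx c
      refine ⟨z1, z2.trans ?_⟩
      have e : G + F = F + G := add_comm _ _
      rw [e]
      have : 0 ≤ Real.sqrt (2 * lam * (F + G)) := Real.sqrt_nonneg _
      nlinarith)
  refine h1.trans (le_of_eq ?_)
  congr 1
  ring

end Pool.Agent.R267.NL
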