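import Pool.Agent.R267.NL.Defs

set_option autoImplicit false
open MeasureTheory
open scoped ContDiff

namespace Pool.Agent.R267.NL.SolAux

/-- double integral over the cell -/
noncomputable def I2 (a b : ℝ) (F : ℝ × ℝ → ℝ) : ℝ :=
  ∫ x in (0 : ℝ)..a, ∫ y in (0 : ℝ)..b, F (x, y)

theorem cont_sec {F : ℝ × ℝ → ℝ} (hF : Continuous F) (x : ℝ) : Continuous fun y => F (x, y) :=
  hF.comp (by fun_prop)

theorem cont_inner {F : ℝ × ℝ → ℝ} (hF : Continuous F) (b : ℝ) :
    Continuous fun x => ∫ y in (0 : ℝ)..b, F (x, y) :=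
  intervalIntegral.continuous_parametric_intervalIntegral_of_continuous'
    (f := fun x y => F (x, y)) hF 0 b

theorem I2_add {a b : ℝ} {F G : ℝ × ℝ → ℝ} (hF : Continuous F) (hG : Continuous G) :
    I2 a b (fun p => F p + G p) = I2 a b F + I2 a b G := by
  unfold I2
  rw [← intervalIntegral.integral_add ((cont_inner hF b).intervalIntegrable 0 a)
    ((cont_inner hG b).intervalIntegrable 0 a)]
  congr 1
  funext x
  exact intervalIntegral.integral_add ((cont_sec hF x).intervalIntegrable 0 b)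
    ((cont_sec hG x).intervalIntegrable 0 b)

theorem I2_smul {a b : ℝ} (c : ℝ) (F : ℝ × ℝ → ℝ) :
    I2 a b (fun p => c * F p) = c * I2 a b F := by
  unfold I2
  simp only [intervalIntegral.integral_const_mul]

theorem I2_sum {a b : ℝ} {ι : Type} (s : Finset ι) (F : ι → ℝ × ℝ → ℝ)
    (hF : ∀ i ∈ s, Continuous (F i)) :
    I2 a b (fun p => ∑ i ∈ s, F i p) = ∑ i ∈ s, I2 a b (F i) := by
  classical
  induction s using Finset.induction_on with
  | empty =>
    simp [I2]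
  | insert i s hi ih =>
    rw [Finset.sum_insert hi, ← ih (fun j hj => hF j (Finset.mem_insert_of_mem hj)),
      ← I2_add (hF i (Finset.mem_insert_self i s))
        (continuous_finset_sum s fun j hj => hF j (Finset.mem_insert_of_mem hj))]
    congr 1
    funext p
    exact Finset.sum_insert hi

theorem I2_const {a b : ℝ} (c : ℝ) : I2 a b (fun _ => c) = c * (a * b) := by
  unfold I2
  rw [intervalIntegral.integral_const, intervalIntegral.integral_const]
  simp only [smul_eq_mul, sub_zero]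
  ring

theorem I2_mono {a b : ℝ} (ha : 0 ≤ a) (hb : 0 ≤ b) {F G : ℝ × ℝ → ℝ} (hF : Continuous F)
    (hG : Continuous G) (h : ∀ p, F p ≤ G p) : I2 a b F ≤ I2 a b G := by
  unfold I2
  refine intervalIntegral.integral_mono_on ha ((cont_inner hF b).intervalIntegrable 0 a)
    ((cont_inner hG b).intervalIntegrable 0 a) fun x _ => ?_
  exact intervalIntegral.integral_mono_on hb ((cont_sec hF x).intervalIntegrable 0 b)
    ((cont_sec hG x).intervalIntegrable 0 b) fun y _ => h _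

theorem I2_nonneg {a b : ℝ} (ha : 0 ≤ a) (hb : 0 ≤ b) {F : ℝ × ℝ → ℝ}
    (h : ∀ p, 0 ≤ F p) : 0 ≤ I2 a b F := by
  unfold I2
  refine intervalIntegral.integral_nonneg ha fun x _ => ?_
  exact intervalIntegral.integral_nonneg hb fun y _ => h _

/-- a point in the cell with the same value -/
theorem exists_cell {a b : ℝ} (ha : 0 < a) (hb : 0 < b) {F : ℝ × ℝ → ℝ}
    (hx : ∀ x y, F (x + a, y) = F (x, y)) (hy : ∀ x y, F (x, y + b) = F (x, y)) (p : ℝ × ℝ) :
    ∃ x y : ℝ, x ∈ Set.Ico 0 a ∧ y ∈ Set.Ico 0 b ∧ F (x, y) = F p := by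
  have h1 : Function.Periodic (fun t => F (t, p.2)) a := fun t => hx t p.2
  obtain ⟨x, hxm, hxe⟩ := h1.exists_mem_Ico₀ ha p.1
  have h2 : Function.Periodic (fun t => F (x, t)) b := fun t => hy x t
  obtain ⟨y, hym, hye⟩ := h2.exists_mem_Ico₀ hb p.2
  refine ⟨x, y, hxm, hym, ?_⟩
  have h3 : F (p.1, p.2) = F (x, p.2) := hxe
  have h4 : F (x, p.2) = F (x, y) := hye
  rw [← h4, ← h3]

theorem I2_pos {a b : ℝ} (ha : 0 < a) (hb : 0 < b) {F : ℝ × ℝ → ℝ} (hF : Continuous F)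
    (h0 : ∀ p, 0 ≤ F p) (hx : ∀ x y, F (x + a, y) = F (x, y))
    (hy : ∀ x y, F (x, y + b) = F (x, y)) (p : ℝ × ℝ) (hp : F p ≠ 0) : 0 < I2 a b F := by
  obtain ⟨x, y, hxm, hym, he⟩ := exists_cell ha hb hx hy p
  have hpos : 0 < F (x, y) := by
    rw [he]
    exact lt_of_le_of_ne (h0 p) (Ne.symm hp)
  unfold I2
  refine intervalIntegral.integral_pos ha (cont_inner hF b).continuousOn
    (fun x _ => intervalIntegral.integral_nonneg hb.le fun y _ => h0 _)
    ⟨x, ⟨hxm.1, hxm.2.le⟩, ?_⟩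
  exact intervalIntegral.integral_pos hb (cont_sec hF x).continuousOn
    (fun y _ => h0 _) ⟨y, ⟨hym.1, hym.2.le⟩, hpos⟩

theorem smooth_x {φ : ℝ × ℝ → ℝ} (hφ : ContDiff ℝ ∞ φ) (y : ℝ) :
    ContDiff ℝ ∞ (fun t => φ (t, y)) :=
  hφ.comp (contDiff_id.prodMk contDiff_const)

theorem smooth_y {φ : ℝ × ℝ → ℝ} (hφ : ContDiff ℝ ∞ φ) (x : ℝ) :
    ContDiff ℝ ∞ (fun t => φ (x, t)) :=
  hφ.comp (contDiff_const.prodMk contDiff_id)

theorem diff_of {u : ℝ → ℝ} (hu : ContDiff ℝ ∞ u) : Differentiable ℝ u :=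
  hu.differentiable (by simp)

theorem deriv_smooth {u : ℝ → ℝ} (hu : ContDiff ℝ ∞ u) : ContDiff ℝ ∞ (deriv u) :=
  (contDiff_infty_iff_deriv.1 hu).2

theorem dd_add {u v : ℝ → ℝ} (hu : ContDiff ℝ ∞ u) (hv : ContDiff ℝ ∞ v) (x : ℝ) :
    deriv (deriv (fun t => u t + v t)) x = deriv (deriv u) x + deriv (deriv v) x := by
  have h1 : deriv (fun t => u t + v t) = fun t => deriv u t + deriv v t := by
    funext t
    exact deriv_fun_add (diff_of hu t) (diff_of hv t)
  rw [h1]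
  exact deriv_fun_add (diff_of (deriv_smooth hu) x) (diff_of (deriv_smooth hv) x)

theorem dd_smul (c : ℝ) (u : ℝ → ℝ) (x : ℝ) :
    deriv (deriv (fun t => c * u t)) x = c * deriv (deriv u) x := by
  have h1 : deriv (fun t => c * u t) = fun t => c * deriv u t := by
    funext t
    exact deriv_const_mul_field c
  rw [h1]
  exact deriv_const_mul_field c

theorem dxx_add {φ ψ : ℝ × ℝ → ℝ} (hφ : ContDiff ℝ ∞ φ) (hψ : ContDiff ℝ ∞ ψ) (p : ℝ × ℝ) :
    dxx (fun q => φ q + ψ q) p = dxx φ p + dxx ψ p :=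
  dd_add (smooth_x hφ p.2) (smooth_x hψ p.2) p.1

theorem dyy_add {φ ψ : ℝ × ℝ → ℝ} (hφ : ContDiff ℝ ∞ φ) (hψ : ContDiff ℝ ∞ ψ) (p : ℝ × ℝ) :
    dyy (fun q => φ q + ψ q) p = dyy φ p + dyy ψ p :=
  dd_add (smooth_y hφ p.1) (smooth_y hψ p.1) p.2

theorem dxx_smul (c : ℝ) (φ : ℝ × ℝ → ℝ) (p : ℝ × ℝ) :
    dxx (fun q => c * φ q) p = c * dxx φ p :=
  dd_smul c (fun t => φ (t, p.2)) p.1

theorem dyy_smul (c : ℝ) (φ : ℝ × ℝ → ℝ) (p : ℝ × ℝ) :
    dyy (fun q => c * φ q) p = c * dyy φ p :=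
  dd_smul c (fun t => φ (p.1, t)) p.2

variable {f g : ℝ → ℝ} {a b lam : ℝ}

theorem sol_add {φ ψ : ℝ × ℝ → ℝ} (hφ : Sol f g a b lam φ) (hψ : Sol f g a b lam ψ) :
    Sol f g a b lam (fun p => φ p + ψ p) where
  smooth := hφ.smooth.add hψ.smooth
  perx := fun x y => by rw [hφ.perx, hψ.perx]
  pery := fun x y => by rw [hφ.pery, hψ.pery]
  pde := fun p => by
    rw [dxx_add hφ.smooth hψ.smooth, dyy_add hφ.smooth hψ.smooth]
    linear_combination hφ.pde p + hψ.pde p

theorem sol_smul (c : ℝ) {φ : ℝ × ℝ → ℝ} (hφ : Sol f g a b lam φ) :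
    Sol f g a b lam (fun p => c * φ p) where
  smooth := contDiff_const.mul hφ.smooth
  perx := fun x y => by rw [hφ.perx]
  pery := fun x y => by rw [hφ.pery]
  pde := fun p => by
    rw [dxx_smul, dyy_smul]
    linear_combination c * hφ.pde p

theorem sol_zero : Sol f g a b lam (fun _ => 0) where
  smooth := contDiff_const
  perx := fun x y => rfl
  pery := fun x y => rfl
  pde := fun p => by simp [dxx, dyy]

theorem sol_sum {ι : Type} (s : Finset ι) (φ : ι → ℝ × ℝ → ℝ)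
    (h : ∀ i ∈ s, Sol f g a b lam (φ i)) : Sol f g a b lam (fun p => ∑ i ∈ s, φ i p) := by
  classical
  induction s using Finset.induction_on with
  | empty => simpa using sol_zero
  | insert i s hi ih =>
    have h1 := sol_add (h i (Finset.mem_insert_self i s))
      (ih fun j hj => h j (Finset.mem_insert_of_mem hj))
    simpa only [Finset.sum_insert hi] using h1

end Pool.Agent.R267.NL.SolAux
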