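import Pool.Agent.R267.NL.Defs

/-!
# NL-UNIQ: uniqueness for a second order linear differential inequality
-/

set_option autoImplicit false

namespace Pool.Agent.R267.NL

namespace UniqAux

theorem forward (Q : ℝ) (R : ℝ → ℝ) (hR : ContDiff ℝ 2 R)
    (h : ∀ x, |deriv (deriv R) x| ≤ Q * |R x|) (z : ℝ) (h0 : R z = 0) (h1 : deriv R z = 0)
    (x : ℝ) (hx : z ≤ x) : R x = 0 := by
  have hd1 : Differentiable ℝ R := hR.differentiable (by norm_num)
  have hR1 : ContDiff ℝ 1 (deriv R) := by
    have e : (2 : WithTop ℕ∞) = 1 + 1 := by norm_num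
    rw [e] at hR
    exact (contDiff_succ_iff_deriv.1 hR).2.2
  have hd2 : Differentiable ℝ (deriv R) := hR1.differentiable (by norm_num)
  have hf : ∀ t : ℝ, HasDerivAt (fun t => (R t, deriv R t)) (deriv R t, deriv (deriv R) t) t :=
    fun t => (hd1 t).hasDerivAt.prodMk (hd2 t).hasDerivAt
  have hc : ContinuousOn (fun t => (R t, deriv R t)) (Set.Icc z x) := fun t _ =>
    (hf t).continuousAt.continuousWithinAt
  have hb : ∀ t ∈ Set.Ico z x, ‖(deriv R t, deriv (deriv R) t)‖ ≤
      (max 1 |Q|) * ‖(R t, deriv R t)‖ + 0 := by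
    intro t _
    rw [Prod.norm_def, Prod.norm_def, add_zero]
    simp only [Real.norm_eq_abs]
    apply max_le
    · calc |deriv R t| ≤ 1 * max |R t| |deriv R t| := by rw [one_mul]; exact le_max_right _ _
        _ ≤ _ := mul_le_mul_of_nonneg_right (le_max_left _ _) ((abs_nonneg _).trans (le_max_left _ _))
    · calc |deriv (deriv R) t| ≤ Q * |R t| := h t
        _ ≤ |Q| * |R t| := mul_le_mul_of_nonneg_right (le_abs_self Q) (abs_nonneg _)
        _ ≤ (max 1 |Q|) * max |R t| |deriv R t| :=
          mul_le_mul (le_max_right _ _) (le_max_left _ _) (abs_nonneg _)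
            (zero_le_one.trans (le_max_left _ _))
  have hg := norm_le_gronwallBound_of_norm_deriv_right_le (δ := 0) hc
    (fun t _ => (hf t).hasDerivWithinAt) (by simp [h0, h1]) hb x ⟨hx, le_rfl⟩
  rw [gronwallBound_ε0_δ0] at hg
  have h2 : (R x, deriv R x) = 0 := norm_le_zero_iff.1 hg
  exact congrArg Prod.fst h2

end UniqAux

open UniqAux in
theorem s_UNIQ : S_UNIQ := by
  intro Q R hR h z h0 h1 x
  rcases le_total z x with hx | hx
  · exact forward Q R hR h z h0 h1 x hx
  · have e1 : ∀ y : ℝ, deriv (fun t => R (2 * z - t)) y = -deriv R (2 * z - y) := fun y => by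
      rw [deriv_comp_const_sub]
    have e2 : ∀ y : ℝ, deriv (deriv (fun t => R (2 * z - t))) y = deriv (deriv R) (2 * z - y) := by
      intro y
      have e3 : deriv (fun t => R (2 * z - t)) = fun y => -deriv R (2 * z - y) := funext e1
      rw [e3, deriv.fun_neg, deriv_comp_const_sub, neg_neg]
    have h3 := forward Q (fun t => R (2 * z - t)) (hR.comp (contDiff_const.sub contDiff_id))
      (fun y => by rw [e2]; exact h _) z (by rw [show 2 * z - z = z by ring]; exact h0)
      (by rw [e1, show 2 * z - z = z by ring, h1, neg_zero]) (2 * z - x) (by linarith)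
    rw [show 2 * z - (2 * z - x) = x by ring] at h3
    exact h3

end Pool.Agent.R267.NL
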